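import Mathlib

/-!
One-dimensional lemmas used for `MP_cf641d_an`.
-/

namespace Pool.Agent.MPcf641d

open MeasureTheory Set Filter Topology

/-- A monotone `1`-Lipschitz function whose average slope on `[u, v]` exceeds `c` has a point with
two-sided lower slopes at least `c`. -/
lemma exists_steep {A : ℝ → ℝ} (hmono : Monotone A)
    (hlip : ∀ s t, s ≤ t → A t - A s ≤ t - s) {c u v : ℝ} (huv : u < v)
    (h : c * (v - u) < A v - A u) :
    ∃ s, ∃ r > 0, ∀ t, 0 < t → t < r →
      c * t ≤ A (s + t) - A s ∧ c * t ≤ A s - A (s - t) := by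
  have hL : LipschitzWith 1 A := by
    refine LipschitzWith.of_dist_le_mul fun x y => ?_
    rw [Real.dist_eq, Real.dist_eq, NNReal.coe_one, one_mul]
    rcases le_total x y with hxy | hxy
    · have h1 := hmono hxy
      have h2 := hlip x y hxy
      rw [abs_sub_comm (A x), abs_sub_comm x, abs_of_nonneg (by linarith),
        abs_of_nonneg (by linarith)]
      exact h2
    · have h1 := hmono hxy
      have h2 := hlip y x hxy
      rw [abs_of_nonneg (by linarith), abs_of_nonneg (by linarith)]
      exact h2
  have hAC : AbsolutelyContinuousOnInterval A u v :=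
    (hL.lipschitzOnWith (s := uIcc u v)).absolutelyContinuousOnInterval
  have hFTC := hAC.integral_deriv_eq_sub
  have hdiff := hAC.ae_differentiableAt
  have hint : IntervalIntegrable (deriv A) volume u v := hAC.intervalIntegrable_deriv
  -- choose `c < c'` with still `c' (v-u) < A v - A u`
  obtain ⟨c', hc1, hc2⟩ : ∃ c', c < c' ∧ c' * (v - u) < A v - A u := by
    have hpos : 0 < v - u := by linarith
    refine ⟨(c + (A v - A u) / (v - u)) / 2, ?_, ?_⟩
    · have : c < (A v - A u) / (v - u) := by rw [lt_div_iff₀ hpos]; exact h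
      linarith
    · have h1 : (A v - A u) / (v - u) * (v - u) = A v - A u := div_mul_cancel₀ _ hpos.ne'
      nlinarith
  -- there is a point of differentiability with derivative `> c'`
  have hex : ∃ s ∈ Icc u v, DifferentiableAt ℝ A s ∧ c' < deriv A s := by
    by_contra hcon
    push Not at hcon
    have hle : ∀ᵐ x ∂(volume.restrict (Ioc u v)), deriv A x ≤ c' := by
      rw [ae_restrict_iff' measurableSet_Ioc]
      filter_upwards [hdiff] with x hx hx'
      have hxI : x ∈ Icc u v := Ioc_subset_Icc_self hx'
      exact hcon x hxI (hx (by rw [uIcc_of_le huv.le]; exact hxI))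
    have h1 : ∫ x in u..v, deriv A x ≤ ∫ x in u..v, c' := by
      rw [intervalIntegral.integral_of_le huv.le, intervalIntegral.integral_of_le huv.le]
      apply integral_mono_ae
      · exact (intervalIntegrable_iff_integrableOn_Ioc_of_le huv.le).1 hint
      · exact integrableOn_const (by simp)
      · exact hle
    rw [hFTC, intervalIntegral.integral_const, smul_eq_mul] at h1
    nlinarith
  obtain ⟨s, -, hd, hs⟩ := hex
  have hder := hd.hasDerivAt
  rw [hasDerivAt_iff_isLittleO_nhds_zero] at hder
  have hb := hder.bound (c := deriv A s - c) (by linarith)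
  rw [Metric.eventually_nhds_iff] at hb
  obtain ⟨r, hr, hb⟩ := hb
  refine ⟨s, r, hr, fun t ht htr => ⟨?_, ?_⟩⟩
  · have h1 := hb (y := t) (by rw [Real.dist_eq, sub_zero, abs_of_pos ht]; exact htr)
    rw [Real.norm_eq_abs, Real.norm_eq_abs, abs_of_pos ht, smul_eq_mul] at h1
    have h2 := (abs_le.1 h1).1
    nlinarith
  · have h1 := hb (y := -t) (by rw [Real.dist_eq, sub_zero, abs_neg, abs_of_pos ht]; exact htr)
    rw [Real.norm_eq_abs, Real.norm_eq_abs, abs_neg, abs_of_pos ht, smul_eq_mul] at h1
    have h2 := (abs_le.1 h1).2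
    rw [← sub_eq_add_neg] at h2
    nlinarith

/-- Continuous induction: a continuous function which is locally nondecreasing to the right at
every point is nondecreasing. -/
lemma le_of_right_local {f : ℝ → ℝ} (hf : Continuous f)
    (h : ∀ x, ∀ᶠ t in 𝓝[>] x, f x ≤ f t) {a b : ℝ} (hab : a ≤ b) : f a ≤ f b := by
  have hcl : IsClosed ({t | f a ≤ f t} ∩ Icc a b) :=
    (isClosed_le continuous_const hf).inter isClosed_Icc
  have := hcl.Icc_subset_of_forall_mem_nhdsWithin (a := a) (b := b) (by simp) ?_
  · exact this (right_mem_Icc.2 hab)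
  · intro x hx
    filter_upwards [h x] with t ht
    exact le_trans hx.1 ht

end Pool.Agent.MPcf641d
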