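import Mathlib
import Pool.Agent.MPcf641d.Real1D

/-!
The abstract operator `U` used for `MP_cf641d_an`, and the slope principle.
-/

set_option linter.unusedSectionVars false

namespace Pool.Agent.MPcf641d

open Set Filter Topology
open scoped RealInnerProductSpace

variable {E : Type*} [NormedAddCommGroup E] [InnerProductSpace ℝ E]

/-- `f` is `C`-Lipschitz (with a real constant). -/
def LipB (C : ℝ) (f : E → ℝ) : Prop := ∀ x y, f x - f y ≤ C * ‖x - y‖

/-- `f` is Lipschitz with some real constant. -/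
def IsLip (f : E → ℝ) : Prop := ∃ C, LipB C f

lemma LipB.mono {C D : ℝ} {f : E → ℝ} (h : LipB C f) (hCD : C ≤ D) : LipB D f := fun x y =>
  (h x y).trans (mul_le_mul_of_nonneg_right hCD (norm_nonneg _))

lemma LipB.abs {C : ℝ} {f : E → ℝ} (h : LipB C f) (x y : E) : |f x - f y| ≤ C * ‖x - y‖ := by
  rw [abs_le]
  constructor
  · have := h y x
    rw [norm_sub_rev] at this
    linarith
  · exact h x y

lemma LipB.add {C D : ℝ} {f h : E → ℝ} (hf : LipB C f) (hh : LipB D h) :
    LipB (C + D) (fun x => f x + h x) := fun x y => by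
  have h1 := hf x y
  have h2 := hh x y
  simp only
  nlinarith

lemma LipB.smul {C : ℝ} {f : E → ℝ} (hf : LipB C f) (c : ℝ) :
    LipB (|c| * C) (fun x => c * f x) := fun x y => by
  have h1 := hf.abs x y
  have h2 : c * f x - c * f y ≤ |c| * |f x - f y| := by
    rw [← abs_mul, ← mul_sub]; exact le_abs_self _
  have h3 := mul_le_mul_of_nonneg_left h1 (abs_nonneg c)
  simp only
  linarith

lemma IsLip.add {f h : E → ℝ} (hf : IsLip f) (hh : IsLip h) : IsLip (fun x => f x + h x) := by
  obtain ⟨C, hC⟩ := hf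
  obtain ⟨D, hD⟩ := hh
  exact ⟨_, hC.add hD⟩

lemma IsLip.smul {f : E → ℝ} (hf : IsLip f) (c : ℝ) : IsLip (fun x => c * f x) := by
  obtain ⟨C, hC⟩ := hf
  exact ⟨_, hC.smul c⟩

lemma IsLip.neg {f : E → ℝ} (hf : IsLip f) : IsLip (fun x => - f x) := by
  have := hf.smul (-1)
  simpa using this

lemma IsLip.sub {f h : E → ℝ} (hf : IsLip f) (hh : IsLip h) : IsLip (fun x => f x - h x) := by
  have := hf.add (hh.smul (-1))
  refine this.imp fun C hC => ?_
  intro x y
  have := hC x y
  simp only at this ⊢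
  linarith

lemma IsLip.exists_nonneg {f : E → ℝ} (hf : IsLip f) : ∃ C, 0 ≤ C ∧ LipB C f := by
  obtain ⟨C, hC⟩ := hf
  exact ⟨max C 0, le_max_right _ _, hC.mono (le_max_left _ _)⟩

lemma IsLip.continuous {f : E → ℝ} (hf : IsLip f) : Continuous f := by
  obtain ⟨C, hC0, hC⟩ := hf.exists_nonneg
  have : LipschitzWith ⟨C, hC0⟩ f := LipschitzWith.of_dist_le_mul fun x y => by
    rw [Real.dist_eq, dist_eq_norm]; exact hC.abs x y
  exact this.continuous

lemma lipB_inner (k : E) : LipB ‖k‖ (fun x => ⟪k, x⟫) := fun x y => by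
  rw [← inner_sub_right]; exact real_inner_le_norm _ _

lemma isLip_inner (k : E) : IsLip (fun x => ⟪k, x⟫) := ⟨_, lipB_inner k⟩

lemma lipB_const (c : ℝ) : LipB 0 (fun _ : E => c) := fun x y => by simp

lemma isLip_const (c : ℝ) : IsLip (fun _ : E => c) := ⟨_, lipB_const c⟩

/-- The data used in the argument: a linear operator `U` on Lipschitz functions, and a
`1`-Lipschitz map `g` such that `U h` and `h ∘ g` have the same Lipschitz constants and `U` fixes
linear functions. -/
structure CoreOp (E : Type*) [NormedAddCommGroup E] [InnerProductSpace ℝ E] where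
  /-- the operator -/
  U : (E → ℝ) → (E → ℝ)
  /-- the map -/
  g : E → E
  g_lip : ∀ x y, ‖g x - g y‖ ≤ ‖x - y‖
  add : ∀ f h, IsLip f → IsLip h → ∀ x, U (fun y => f y + h y) x = U f x + U h x
  smul : ∀ (c : ℝ) f, IsLip f → ∀ x, U (fun y => c * f y) x = c * U f x
  lin : ∀ k x, U (fun y => ⟪k, y⟫) x = ⟪k, x⟫
  lip_iff : ∀ h, IsLip h → ∀ C, LipB C (U h) ↔ LipB C (fun x => h (g x))

namespace CoreOp

variable (O : CoreOp E)

lemma lipB {h : E → ℝ} {C : ℝ} (hC0 : 0 ≤ C) (hC : LipB C h) : LipB C (O.U h) := by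
  rw [O.lip_iff h ⟨C, hC⟩]
  intro x y
  exact (hC _ _).trans (mul_le_mul_of_nonneg_left (O.g_lip x y) hC0)

lemma isLip {h : E → ℝ} (hh : IsLip h) : IsLip (O.U h) := by
  obtain ⟨C, hC0, hC⟩ := hh.exists_nonneg
  exact ⟨C, O.lipB hC0 hC⟩

lemma sub {f h : E → ℝ} (hf : IsLip f) (hh : IsLip h) (x : E) :
    O.U (fun y => f y - h y) x = O.U f x - O.U h x := by
  have h1 := O.add f (fun y => (-1) * h y) hf (hh.smul (-1)) x
  rw [O.smul (-1) h hh x] at h1
  have h2 : (fun y => f y - h y) = (fun y => f y + (-1) * h y) := by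
    funext y; ring
  rw [h2, h1]; ring

lemma const_sub (c : ℝ) (x y : E) : O.U (fun _ => c) x - O.U (fun _ => c) y = 0 := by
  have h := O.lipB le_rfl (lipB_const (E := E) c)
  have h1 := h x y
  have h2 := h y x
  simp only [zero_mul] at h1 h2
  linarith

/-- slope principle for a unit vector -/
lemma slope_unit {h : E → ℝ} (hh : IsLip h) {v : E} (hv : ‖v‖ = 1) {c : ℝ}
    (hc : ∀ x, ∀ t : ℝ, 0 ≤ t → h (x + t • v) - h x ≤ c * t) (x : E) (t : ℝ) (ht : 0 ≤ t) :
    O.U h (x + t • v) - O.U h x ≤ c * t := by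
  obtain ⟨L, hL0, hL⟩ := hh.exists_nonneg
  -- the basic inequality for each large `R`
  have key : ∀ R : ℝ, L ≤ R → 0 < R + c →
      O.U h (x + t • v) - O.U h x ≤ c * t + L ^ 2 * t / (2 * (R + c)) := by
    intro R hR hRc
    set B : ℝ := Real.sqrt ((R + c) ^ 2 + L ^ 2) with hB
    have hB0 : 0 ≤ B := Real.sqrt_nonneg _
    have hBsq : B ^ 2 = (R + c) ^ 2 + L ^ 2 := Real.sq_sqrt (by positivity)
    have hLB : L ≤ B := by
      apply Real.le_sqrt_of_sq_le; nlinarith [sq_nonneg (R + c)]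
    have hlip : LipB B (fun y => R * ⟪v, y⟫ + h y) := by
      intro y z
      set s : ℝ := ⟪v, y - z⟫ with hs
      set w : E := y - z - s • v with hw
      have hvw : ⟪v, w⟫ = 0 := by
        rw [hw, inner_sub_right, inner_smul_right, real_inner_self_eq_norm_sq, hv, ← hs]; ring
      have hyz : y - z = s • v + w := by rw [hw]; abel
      have hnorm : ‖y - z‖ ^ 2 = s ^ 2 + ‖w‖ ^ 2 := by
        rw [hyz, @norm_add_sq_real, inner_smul_left, hvw, norm_smul, hv]
        simp
      have hw0 := norm_nonneg w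
      have hn0 := norm_nonneg (y - z)
      have hwn : ‖w‖ ≤ ‖y - z‖ := by
        apply le_of_sq_le_sq _ hn0 |> fun h => h
        nlinarith [sq_nonneg s]
      have hdecomp : (fun y => R * ⟪v, y⟫ + h y) y - (fun y => R * ⟪v, y⟫ + h y) z
          = R * s + (h y - h z) := by
        simp only [hs, inner_sub_right]; ring
      rw [hdecomp]
      have hy : y = (z + w) + s • v := by
        have : y = z + (y - z) := by abel
        rw [this, hyz]; abel
      have hzw : h (z + w) - h z ≤ L * ‖w‖ := by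
        have := hL (z + w) z; simpa using this
      rcases le_total 0 s with hs0 | hs0
      · have h1 : h y - h (z + w) ≤ c * s := by
          have := hc (z + w) s hs0
          rwa [← hy] at this
        -- Cauchy-Schwarz
        have h2 : (R + c) * s + L * ‖w‖ ≤ B * ‖y - z‖ := by
          apply le_of_sq_le_sq _ (by positivity) |> fun h => h
          rw [mul_pow, hBsq, hnorm]
          nlinarith [sq_nonneg ((R + c) * ‖w‖ - L * s)]
        linarith
      · have h1 : h y - h (z + w) ≤ L * (-s) := by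
          have := hL y (z + w)
          have h3 : y - (z + w) = s • v := by rw [hy]; abel
          rw [h3, norm_smul, hv, Real.norm_eq_abs, abs_of_nonpos hs0, mul_one] at this
          exact this
        have h2 : R * s + (h y - h z) ≤ L * ‖w‖ := by nlinarith
        have h3 : L * ‖w‖ ≤ B * ‖y - z‖ := mul_le_mul hLB hwn hw0 hB0
        linarith
    have hU := O.lipB hB0 hlip (x + t • v) x
    have hlinL : IsLip (fun y => R * ⟪v, y⟫) := (isLip_inner v).smul R
    rw [O.add _ _ hlinL hh, O.add _ _ hlinL hh, O.smul _ _ (isLip_inner v),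
      O.smul _ _ (isLip_inner v), O.lin, O.lin, add_sub_cancel_left, norm_smul, hv,
      Real.norm_eq_abs, abs_of_nonneg ht, inner_add_right, inner_smul_right,
      real_inner_self_eq_norm_sq, hv] at hU
    have hB2 : B ≤ (R + c) + L ^ 2 / (2 * (R + c)) := by
      apply Real.sqrt_le_iff.2 ⟨by positivity, ?_⟩
      have h2 : ((R + c) + L ^ 2 / (2 * (R + c))) ^ 2
          = (R + c) ^ 2 + L ^ 2 + (L ^ 2 / (2 * (R + c))) ^ 2 := by
        field_simp; ring
      rw [h2]; nlinarith [sq_nonneg (L ^ 2 / (2 * (R + c)))]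
    have h3 : B * (t * 1) ≤ (R + c) * t + L ^ 2 * t / (2 * (R + c)) := by
      have := mul_le_mul_of_nonneg_right hB2 ht
      calc B * (t * 1) = B * t := by ring
        _ ≤ _ := this
        _ = _ := by ring
    nlinarith
  apply le_of_forall_pos_le_add
  intro ε hε
  -- choose `R`
  set R : ℝ := max L (L ^ 2 * t / ε + 1 - c) with hR
  have h1 : L ≤ R := le_max_left _ _
  have h2 : L ^ 2 * t / ε + 1 - c ≤ R := le_max_right _ _
  have h0 : 0 ≤ L ^ 2 * t / ε := by positivity
  have h3 : 0 < R + c := by linarith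
  have h4 := key R h1 h3
  have h5 : L ^ 2 * t / (2 * (R + c)) ≤ ε := by
    rw [div_le_iff₀ (by positivity)]
    have h6 : L ^ 2 * t / ε ≤ R + c := by linarith
    rw [div_le_iff₀ hε] at h6
    nlinarith
  linarith

/-- slope principle -/
lemma slope {h : E → ℝ} (hh : IsLip h) {v : E} {c : ℝ}
    (hc : ∀ x, ∀ t : ℝ, 0 ≤ t → h (x + t • v) - h x ≤ c * t) (x : E) (t : ℝ) (ht : 0 ≤ t) :
    O.U h (x + t • v) - O.U h x ≤ c * t := by
  rcases eq_or_ne v 0 with rfl | hv
  · have := hc x t ht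
    simpa using this
  · have hn : 0 < ‖v‖ := norm_pos_iff.2 hv
    have h1 : ‖(‖v‖⁻¹ • v)‖ = 1 := by
      rw [norm_smul, norm_inv, norm_norm, inv_mul_cancel₀ hn.ne']
    have h2 := O.slope_unit hh h1 (c := c / ‖v‖) (fun y s hs => ?_) x (t * ‖v‖) (by positivity)
    · rw [smul_smul, mul_assoc, mul_inv_cancel₀ hn.ne', mul_one] at h2
      calc _ ≤ _ := h2
        _ = c * t := by field_simp
    · have h3 := hc y (s / ‖v‖) (by positivity)
      rw [smul_smul]
      have h4 : s * ‖v‖⁻¹ = s / ‖v‖ := by ring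
      rw [h4]
      calc _ ≤ _ := h3
        _ = _ := by ring

/-- comparison of slopes -/
lemma mono {h₁ h₂ : E → ℝ} (hh₁ : IsLip h₁) (hh₂ : IsLip h₂) {v : E}
    (hc : ∀ x, ∀ t : ℝ, 0 ≤ t → h₁ (x + t • v) - h₁ x ≤ h₂ (x + t • v) - h₂ x)
    (x : E) (t : ℝ) (ht : 0 ≤ t) :
    O.U h₁ (x + t • v) - O.U h₁ x ≤ O.U h₂ (x + t • v) - O.U h₂ x := by
  have h := O.slope (h := fun y => h₁ y - h₂ y) (hh₁.sub hh₂) (v := v) (c := 0)
    (fun y s hs => by have := hc y s hs; linarith) x t ht
  rw [O.sub hh₁ hh₂, O.sub hh₁ hh₂] at h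
  linarith

end CoreOp

end Pool.Agent.MPcf641d
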