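import Mathlib

/-!
# Lipschitz-free spaces: definitions for `MP_cf641d_an`

* `F₀ M`: real vector space of finitely supported functions `M → ℝ` with total sum `0`, with the
  norm `‖x‖ = sup_f |∑ x(m) f(m)|`, the supremum over all `1`-Lipschitz `f : M → ℝ`.
* `FreeSpace M`: its completion, the Lipschitz-free space.
* `LipschitzFreeRigid M`.
-/

set_option linter.unusedSectionVars false

namespace Pool.Agent.MPcf641d

variable {M : Type*}

/-- `∑_m x(m) f(m)` for a finitely supported function `x`. -/
noncomputable def pair (x : M →₀ ℝ) (f : M → ℝ) : ℝ := x.sum fun m c => c * f m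

lemma pair_add (x y : M →₀ ℝ) (f : M → ℝ) : pair (x + y) f = pair x f + pair y f := by
  classical
  unfold pair
  exact Finsupp.sum_add_index' (by simp) (fun _ _ _ => by ring)

lemma pair_smul (c : ℝ) (x : M →₀ ℝ) (f : M → ℝ) : pair (c • x) f = c * pair x f := by
  unfold pair
  rw [Finsupp.sum_smul_index' (by simp), Finsupp.mul_sum]
  congr 1
  funext m b
  rw [smul_eq_mul]; ring

lemma pair_zero (f : M → ℝ) : pair (0 : M →₀ ℝ) f = 0 := by simp [pair]

lemma pair_sub (x y : M →₀ ℝ) (f : M → ℝ) : pair (x - y) f = pair x f - pair y f := by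
  have h : x - y = x + (-1 : ℝ) • y := by simp [sub_eq_add_neg]
  rw [h, pair_add, pair_smul]; ring

lemma pair_single (m : M) (c : ℝ) (f : M → ℝ) : pair (Finsupp.single m c) f = c * f m := by
  simp [pair]

lemma pair_fun_add (x : M →₀ ℝ) (f g : M → ℝ) :
    pair x (fun m => f m + g m) = pair x f + pair x g := by
  unfold pair
  rw [← Finsupp.sum_add]
  congr 1
  funext m b; ring

lemma pair_fun_smul (x : M →₀ ℝ) (c : ℝ) (f : M → ℝ) :
    pair x (fun m => c * f m) = c * pair x f := by
  unfold pair
  rw [Finsupp.mul_sum]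
  congr 1
  funext m b; ring

/-- The real vector space of finitely supported functions on `M` with total sum zero (as a
subspace of all finitely supported functions). -/
def zeroSum (M : Type*) : Submodule ℝ (M →₀ ℝ) where
  carrier := {x | (x.sum fun _ c => c) = 0}
  add_mem' := by
    intro x y hx hy
    classical
    simp only [Set.mem_ofPred_eq] at hx hy ⊢
    rw [Finsupp.sum_add_index' (by simp) (fun _ _ _ => rfl), hx, hy, add_zero]
  zero_mem' := by simp
  smul_mem' := by
    intro c x hx
    simp only [Set.mem_ofPred_eq] at hx ⊢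
    rw [Finsupp.sum_smul_index' (by simp)]
    simp only [smul_eq_mul]
    rw [← Finsupp.mul_sum, hx, mul_zero]

/-- `F₀ M`: finitely supported functions with total sum zero. -/
def F₀ (M : Type*) : Type _ := zeroSum M

noncomputable instance : AddCommGroup (F₀ M) := inferInstanceAs (AddCommGroup (zeroSum M))
noncomputable instance : Module ℝ (F₀ M) := inferInstanceAs (Module ℝ (zeroSum M))

/-- the underlying finitely supported function -/
def F₀.val (x : F₀ M) : M →₀ ℝ := Subtype.val x

lemma F₀.sum_eq (x : F₀ M) : (x.val.sum fun _ c => c) = 0 := x.2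

lemma F₀.ext {x y : F₀ M} (h : x.val = y.val) : x = y := Subtype.ext h

@[simp] lemma F₀.val_add (x y : F₀ M) : (x + y).val = x.val + y.val := rfl
@[simp] lemma F₀.val_smul (c : ℝ) (x : F₀ M) : (c • x).val = c • x.val := rfl
@[simp] lemma F₀.val_zero : (0 : F₀ M).val = 0 := rfl
@[simp] lemma F₀.val_sub (x y : F₀ M) : (x - y).val = x.val - y.val := rfl
@[simp] lemma F₀.val_neg (x : F₀ M) : (-x).val = -x.val := rfl

lemma F₀.pair_one (x : F₀ M) (c : ℝ) : pair x.val (fun _ => c) = 0 := by
  have h := x.sum_eq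
  unfold pair
  rw [← Finsupp.sum_mul, h, zero_mul]

/-- `δ_p - δ_q`, the difference of the characteristic functions of `{p}` and `{q}`. -/
noncomputable def mol (p q : M) : F₀ M :=
  ⟨Finsupp.single p 1 - Finsupp.single q 1, by
    show ((Finsupp.single p (1 : ℝ) - Finsupp.single q 1).sum fun _ c => c) = 0
    classical
    rw [Finsupp.sum_sub_index (fun _ _ _ => rfl)]
    simp⟩

lemma mol_val (p q : M) : (mol p q).val = Finsupp.single p 1 - Finsupp.single q 1 := rfl

lemma pair_mol (p q : M) (f : M → ℝ) : pair (mol p q).val f = f p - f q := by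
  rw [mol_val, pair_sub, pair_single, pair_single]; ring

variable [MetricSpace M]

/-- The norm `‖x‖ = sup_f |∑_m x(m) f(m)|`, the supremum over all `1`-Lipschitz `f : M → ℝ`. -/
noncomputable instance : Norm (F₀ M) :=
  ⟨fun x => ⨆ f : {f : M → ℝ // LipschitzWith 1 f}, |pair x.val f.1|⟩

lemma norm_def (x : F₀ M) :
    ‖x‖ = ⨆ f : {f : M → ℝ // LipschitzWith 1 f}, |pair x.val f.1| := rfl

instance : Nonempty {f : M → ℝ // LipschitzWith 1 f} := ⟨⟨fun _ => 0, LipschitzWith.const' 0⟩⟩

lemma bddAbove_pair (x : F₀ M) :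
    BddAbove (Set.range fun f : {f : M → ℝ // LipschitzWith 1 f} => |pair x.val f.1|) := by
  rcases isEmpty_or_nonempty M with hM | ⟨⟨m₀⟩⟩
  · refine ⟨0, ?_⟩
    rintro _ ⟨f, rfl⟩
    have : x.val = 0 := Subsingleton.elim _ _
    simp [this, pair_zero]
  · refine ⟨∑ m ∈ x.val.support, |x.val m| * dist m m₀, ?_⟩
    rintro _ ⟨⟨f, hf⟩, rfl⟩
    have h1 : pair x.val f = ∑ m ∈ x.val.support, x.val m * (f m - f m₀) := by
      have h2 := x.pair_one (f m₀)
      unfold pair Finsupp.sum at *
      rw [← sub_zero (∑ m ∈ x.val.support, x.val m * f m), ← h2, ← Finset.sum_sub_distrib]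
      apply Finset.sum_congr rfl
      intro m _; ring
    show |pair x.val f| ≤ _
    rw [h1]
    refine (Finset.abs_sum_le_sum_abs _ _).trans (Finset.sum_le_sum fun m _ => ?_)
    rw [abs_mul]
    refine mul_le_mul_of_nonneg_left ?_ (abs_nonneg _)
    have := hf.dist_le_mul m m₀
    rwa [Real.dist_eq, NNReal.coe_one, one_mul] at this

lemma pair_le_norm (x : F₀ M) {f : M → ℝ} (hf : LipschitzWith 1 f) : |pair x.val f| ≤ ‖x‖ :=
  le_ciSup (bddAbove_pair x) ⟨f, hf⟩

lemma norm_le {x : F₀ M} {C : ℝ} (h : ∀ f : M → ℝ, LipschitzWith 1 f → |pair x.val f| ≤ C) :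
    ‖x‖ ≤ C := ciSup_le fun f => h f.1 f.2

lemma norm_core : NormedSpace.Core ℝ (F₀ M) where
  norm_nonneg x := Real.iSup_nonneg fun f => abs_nonneg _
  norm_smul c x := by
    simp only [norm_def, F₀.val_smul, pair_smul, abs_mul, Real.norm_eq_abs]
    rw [Real.mul_iSup_of_nonneg (abs_nonneg c)]
  norm_triangle x y := by
    apply norm_le
    intro f hf
    rw [F₀.val_add, pair_add]
    exact (abs_add_le _ _).trans (add_le_add (pair_le_norm x hf) (pair_le_norm y hf))
  norm_eq_zero_iff x := by
    constructor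
    · intro h
      by_contra hx
      have hx' : x.val ≠ 0 := fun h0 => hx (F₀.ext h0)
      obtain ⟨m₀, hm₀⟩ := Finsupp.support_nonempty_iff.2 hx'
      -- a radius isolating `m₀` from the rest of the support
      obtain ⟨r, hr, hr'⟩ : ∃ r > 0, ∀ m ∈ x.val.support, m ≠ m₀ → r ≤ dist m m₀ := by
        classical
        rcases (x.val.support.erase m₀).eq_empty_or_nonempty with h0 | h0
        · refine ⟨1, one_pos, fun m hm hmm => ?_⟩
          exact absurd (Finset.mem_erase.2 ⟨hmm, hm⟩) (by rw [h0]; simp)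
        · refine ⟨(x.val.support.erase m₀).inf' h0 fun m => dist m m₀, ?_, fun m hm hmm => ?_⟩
          · rw [gt_iff_lt, Finset.lt_inf'_iff]
            intro m hm
            exact dist_pos.2 (Finset.ne_of_mem_erase hm)
          · exact Finset.inf'_le _ (Finset.mem_erase.2 ⟨hmm, hm⟩)
      set f : M → ℝ := fun m => max (r - dist m m₀) 0 with hf
      have hf1 : LipschitzWith 1 f := by
        have h1 : LipschitzWith 1 (fun m : M => r - dist m m₀) := by
          refine LipschitzWith.of_dist_le_mul fun a b => ?_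
          rw [Real.dist_eq, NNReal.coe_one, one_mul]
          have : r - dist a m₀ - (r - dist b m₀) = dist b m₀ - dist a m₀ := by ring
          rw [this]
          have h2 := abs_dist_sub_le b a m₀
          rwa [dist_comm b a] at h2
        exact h1.max_const 0
      have h2 : pair x.val f = x.val m₀ * r := by
        unfold pair Finsupp.sum
        rw [Finset.sum_eq_single m₀]
        · simp [hf, hr.le]
        · intro m hm hmm
          have := hr' m hm hmm
          rw [hf]
          simp only
          rw [max_eq_right (by linarith), mul_zero]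
        · intro h0
          exact absurd hm₀ h0
      have h3 := pair_le_norm x hf1
      rw [h, h2, abs_mul] at h3
      have h4 : 0 < |x.val m₀| := abs_pos.2 (Finsupp.mem_support_iff.1 hm₀)
      have h5 : 0 < |r| := abs_pos.2 hr.ne'
      nlinarith [mul_pos h4 h5]
    · rintro rfl
      apply le_antisymm
      · exact norm_le fun f _ => by simp [pair_zero]
      · exact Real.iSup_nonneg fun f => abs_nonneg _

noncomputable instance : NormedAddCommGroup (F₀ M) := NormedAddCommGroup.ofCore norm_core
noncomputable instance : NormedSpace ℝ (F₀ M) := NormedSpace.ofCore norm_core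

/-- The Lipschitz-free space of `M`: the completion of `F₀ M`. -/
abbrev FreeSpace (M : Type*) [MetricSpace M] : Type _ := UniformSpace.Completion (F₀ M)

/-- `T` is the operator `T_φ` induced by the `a`-dilation `φ`: the continuous linear map with
`T (δ_p - δ_q) = a (δ_{φ p} - δ_{φ q})` for all `p, q`. -/
def IsInducedBy (a : ℝ) (φ : M → M) (T : FreeSpace M →L[ℝ] FreeSpace M) : Prop :=
  ∀ p q : M, T (mol p q : F₀ M) = a • ((mol (φ p) (φ q) : F₀ M) : FreeSpace M)

/-- `M` is Lipschitz-free rigid: every surjective linear isometry `T` of `FreeSpace M` is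
`ε T_φ` with `ε = ±1` and `φ` a surjective `a`-dilation of `M`, `a > 0`. -/
def LipschitzFreeRigid (M : Type*) [MetricSpace M] : Prop :=
  ∀ T : FreeSpace M ≃ₗᵢ[ℝ] FreeSpace M,
    ∃ ε : ℝ, (ε = 1 ∨ ε = -1) ∧
    ∃ a : ℝ, 0 < a ∧
    ∃ φ : M → M, Function.Surjective φ ∧ (∀ x y, dist x y = a * dist (φ x) (φ y)) ∧
    ∃ Tφ : FreeSpace M →L[ℝ] FreeSpace M, IsInducedBy a φ Tφ ∧ ∀ v, T v = ε • Tφ v

end Pool.Agent.MPcf641d
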