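import Mathlib
import Pool.Agent.MPcf641d.Core

/-!
Ridge functions, the profile `A κ p`, and the predicates `Good` and `Near`, for `MP_cf641d_an`.
-/

set_option linter.unusedSectionVars false

namespace Pool.Agent.MPcf641d

open Set Filter Topology
open scoped RealInnerProductSpace

variable {E : Type*} [NormedAddCommGroup E] [InnerProductSpace ℝ E]

/-- a real function with slopes bounded by `C` in absolute value -/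
def LipR (C : ℝ) (φ : ℝ → ℝ) : Prop := ∀ a b, φ a - φ b ≤ C * |a - b|

lemma LipR.ridge {C : ℝ} (hC0 : 0 ≤ C) {φ : ℝ → ℝ} (hφ : LipR C φ) (κ : E) :
    LipB (C * ‖κ‖) (fun x => φ ⟪κ, x⟫) := fun x y => by
  have h1 := hφ ⟪κ, x⟫ ⟪κ, y⟫
  have h2 : |⟪κ, x⟫ - ⟪κ, y⟫| ≤ ‖κ‖ * ‖x - y‖ := by
    rw [← inner_sub_right]; exact abs_real_inner_le_norm _ _
  have h3 := mul_le_mul_of_nonneg_left h2 hC0
  simp only
  linarith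

lemma isLip_ridge {C : ℝ} (hC0 : 0 ≤ C) {φ : ℝ → ℝ} (hφ : LipR C φ) (κ : E) :
    IsLip (fun x => φ ⟪κ, x⟫) := ⟨_, hφ.ridge hC0 κ⟩

lemma lipR_max (p : ℝ) : LipR 1 (fun s => max s p) := fun a b => by
  rw [one_mul]
  simp only
  rcases max_cases a p with ⟨h1, h2⟩ | ⟨h1, h2⟩ <;>
  rcases max_cases b p with ⟨h3, h4⟩ | ⟨h3, h4⟩ <;>
  rcases abs_cases (a - b) with ⟨h5, h6⟩ | ⟨h5, h6⟩ <;> linarith

lemma isLip_max (κ : E) (p : ℝ) : IsLip (fun x => max ⟪κ, x⟫ p) :=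
  isLip_ridge zero_le_one (lipR_max p) κ

lemma lipR_id : LipR 1 (fun s => s) := fun a b => by
  rw [one_mul]; exact le_abs_self _

lemma max_ineq_two (a b p₁ p₂ t : ℝ) (ht : 0 ≤ t) :
    (max (a + t) p₁ - max a p₁) + (max (b + t) p₂ - max b p₂) ≤
      t + (1 / 2) * (max (a + b + 2 * t) (p₁ + p₂) - max (a + b) (p₁ + p₂)) := by
  rcases max_cases (a + t) p₁ with ⟨h1, h2⟩ | ⟨h1, h2⟩ <;>
  rcases max_cases (b + t) p₂ with ⟨h3, h4⟩ | ⟨h3, h4⟩ <;>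
  rcases max_cases a p₁ with ⟨h5, h6⟩ | ⟨h5, h6⟩ <;>
  rcases max_cases b p₂ with ⟨h7, h8⟩ | ⟨h7, h8⟩ <;>
  rcases max_cases (a + b + 2 * t) (p₁ + p₂) with ⟨h9, h10⟩ | ⟨h9, h10⟩ <;>
  rcases max_cases (a + b) (p₁ + p₂) with ⟨h11, h12⟩ | ⟨h11, h12⟩ <;> linarith

lemma max_ineq_excl (a p q t : ℝ) (ht : 0 ≤ t) (hqp : q ≤ p) :
    max (a + t) p - max a p ≤ t + (max (-(a + t)) (-q) - max (-a) (-q)) := by
  rcases max_cases (a + t) p with ⟨h1, h2⟩ | ⟨h1, h2⟩ <;>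
  rcases max_cases a p with ⟨h3, h4⟩ | ⟨h3, h4⟩ <;>
  rcases max_cases (-(a + t)) (-q) with ⟨h5, h6⟩ | ⟨h5, h6⟩ <;>
  rcases max_cases (-a) (-q) with ⟨h7, h8⟩ | ⟨h7, h8⟩ <;> linarith

namespace CoreOp

variable (O : CoreOp E)

/-- `U` of a ridge function is a ridge function -/
lemma ridge_inv {κ : E} {φ : ℝ → ℝ} (hφ : IsLip (fun x : E => φ ⟪κ, x⟫)) {x y : E}
    (hxy : ⟪κ, x⟫ = ⟪κ, y⟫) : O.U (fun x => φ ⟪κ, x⟫) x = O.U (fun x => φ ⟪κ, x⟫) y := by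
  have key : ∀ x y : E, ⟪κ, x⟫ = ⟪κ, y⟫ →
      O.U (fun x => φ ⟪κ, x⟫) x - O.U (fun x => φ ⟪κ, x⟫) y ≤ 0 := by
    intro x y hxy
    have h := O.slope hφ (v := x - y) (c := 0) (fun z t ht => ?_) y 1 zero_le_one
    · simpa using h
    · rw [inner_add_right, inner_smul_right, inner_sub_right, hxy]
      simp
  have h1 := key x y hxy
  have h2 := key y x hxy.symm
  linarith

/-- slopes of ridge functions -/
lemma ridge_slope_le {κ : E} {φ : ℝ → ℝ} (hφ : IsLip (fun x : E => φ ⟪κ, x⟫)) {c : ℝ}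
    (hc : ∀ a b, a ≤ b → φ b - φ a ≤ c * (b - a)) {x y : E} (hxy : ⟪κ, x⟫ ≤ ⟪κ, y⟫) :
    O.U (fun x => φ ⟪κ, x⟫) y - O.U (fun x => φ ⟪κ, x⟫) x ≤ c * (⟪κ, y⟫ - ⟪κ, x⟫) := by
  have h := O.slope hφ (v := y - x) (c := c * (⟪κ, y⟫ - ⟪κ, x⟫)) (fun z t ht => ?_) x 1 zero_le_one
  · simpa using h
  · rw [inner_add_right, inner_smul_right, inner_sub_right]
    have h1 := hc ⟪κ, z⟫ (⟪κ, z⟫ + t * (⟪κ, y⟫ - ⟪κ, x⟫)) (by nlinarith)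
    calc _ ≤ _ := h1
      _ = _ := by ring

/-- comparison for ridge functions in the same direction -/
lemma ridge_mono {κ : E} {φ₁ φ₂ : ℝ → ℝ} (h₁ : IsLip (fun x : E => φ₁ ⟪κ, x⟫))
    (h₂ : IsLip (fun x : E => φ₂ ⟪κ, x⟫))
    (hc : ∀ a b, a ≤ b → φ₁ b - φ₁ a ≤ φ₂ b - φ₂ a) {x y : E} (hxy : ⟪κ, x⟫ ≤ ⟪κ, y⟫) :
    O.U (fun x => φ₁ ⟪κ, x⟫) y - O.U (fun x => φ₁ ⟪κ, x⟫) x ≤
      O.U (fun x => φ₂ ⟪κ, x⟫) y - O.U (fun x => φ₂ ⟪κ, x⟫) x := by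
  have h := O.mono h₁ h₂ (v := y - x) (fun z t ht => ?_) x 1 zero_le_one
  · simpa using h
  · rw [inner_add_right, inner_smul_right, inner_sub_right]
    exact hc ⟪κ, z⟫ (⟪κ, z⟫ + t * (⟪κ, y⟫ - ⟪κ, x⟫)) (by nlinarith)

/-- The profile of `U (max ⟪κ, ·⟫ p)`. -/
noncomputable def A (κ : E) (p : ℝ) (s : ℝ) : ℝ :=
  O.U (fun x => max ⟪κ, x⟫ p) ((s / ‖κ‖ ^ 2) • κ)

lemma inner_div_smul {κ : E} (hκ : κ ≠ 0) (s : ℝ) : ⟪κ, (s / ‖κ‖ ^ 2) • κ⟫ = s := by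
  have : ‖κ‖ ≠ 0 := norm_ne_zero_iff.2 hκ
  rw [inner_smul_right, real_inner_self_eq_norm_sq]
  field_simp

lemma A_inner {κ : E} (hκ : κ ≠ 0) (p : ℝ) (x : E) :
    O.U (fun x => max ⟪κ, x⟫ p) x = O.A κ p ⟪κ, x⟫ := by
  unfold A
  exact O.ridge_inv (κ := κ) (φ := fun s => max s p) (isLip_max κ p) (inner_div_smul hκ _).symm

/-- two-sided lower slope at least `1 - ε` at `s` -/
def Good (κ : E) (s p ε : ℝ) : Prop :=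
  ∃ r > 0, ∀ t, 0 < t → t < r →
    (1 - ε) * t ≤ O.A κ p (s + t) - O.A κ p s ∧ (1 - ε) * t ≤ O.A κ p s - O.A κ p (s - t)

lemma Good.mono_eps {κ : E} {s p ε ε' : ℝ} (h : O.Good κ s p ε) (hε : ε ≤ ε') :
    O.Good κ s p ε' := by
  obtain ⟨r, hr, h⟩ := h
  refine ⟨r, hr, fun t ht htr => ?_⟩
  obtain ⟨h1, h2⟩ := h t ht htr
  constructor <;> nlinarith

lemma Good.mono_p {κ : E} (hκ : κ ≠ 0) {s p p' ε : ℝ} (h : O.Good κ s p ε) (hp : p' ≤ p) :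
    O.Good κ s p' ε := by
  have key : ∀ a b : ℝ, a ≤ b → O.A κ p b - O.A κ p a ≤ O.A κ p' b - O.A κ p' a := by
    intro a b hab
    have h1 := O.ridge_mono (κ := κ) (φ₁ := fun s => max s p) (φ₂ := fun s => max s p')
      (isLip_max κ p) (isLip_max κ p') (fun a b hab => ?_) (x := (a / ‖κ‖ ^ 2) • κ)
      (y := (b / ‖κ‖ ^ 2) • κ) (by rw [inner_div_smul hκ, inner_div_smul hκ]; exact hab)
    · exact h1
    · rcases max_cases a p with ⟨h1, h2⟩ | ⟨h1, h2⟩ <;>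
      rcases max_cases b p with ⟨h3, h4⟩ | ⟨h3, h4⟩ <;>
      rcases max_cases a p' with ⟨h5, h6⟩ | ⟨h5, h6⟩ <;>
      rcases max_cases b p' with ⟨h7, h8⟩ | ⟨h7, h8⟩ <;> linarith
  obtain ⟨r, hr, h⟩ := h
  refine ⟨r, hr, fun t ht htr => ?_⟩
  obtain ⟨h1, h2⟩ := h t ht htr
  have h3 := key s (s + t) (by linarith)
  have h4 := key (s - t) s (by linarith)
  constructor <;> linarith

lemma A_scale {κ : E} (hκ : κ ≠ 0) {l : ℝ} (hl : 0 < l) (p s : ℝ) :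
    O.A (l • κ) (l * p) (l * s) = l * O.A κ p s := by
  have h1 : ⟪κ, (s / ‖κ‖ ^ 2) • κ⟫ = s := inner_div_smul hκ s
  have h2 : ⟪l • κ, (s / ‖κ‖ ^ 2) • κ⟫ = l * s := by
    rw [inner_smul_left, h1]; simp
  have hlκ : l • κ ≠ 0 := smul_ne_zero hl.ne' hκ
  rw [← h2, ← O.A_inner hlκ, ← h1, ← O.A_inner hκ, h1, ← O.smul l _ (isLip_max κ p)]
  congr 1
  funext x
  rw [inner_smul_left]
  simp only [conj_trivial]
  exact (mul_max_of_nonneg _ _ hl.le).symm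

lemma Good.scale {κ : E} (hκ : κ ≠ 0) {l : ℝ} (hl : 0 < l) {s p ε : ℝ} (h : O.Good κ s p ε) :
    O.Good (l • κ) (l * s) (l * p) ε := by
  obtain ⟨r, hr, h⟩ := h
  refine ⟨l * r, by positivity, fun t ht htr => ?_⟩
  have ht' : t / l < r := by rw [div_lt_iff₀ hl]; linarith
  obtain ⟨h1, h2⟩ := h (t / l) (by positivity) ht'
  have e1 : l * s + t = l * (s + t / l) := by field_simp
  have e2 : l * s - t = l * (s - t / l) := by field_simp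
  rw [e1, e2, O.A_scale hκ hl, O.A_scale hκ hl, O.A_scale hκ hl]
  have h3 := mul_le_mul_of_nonneg_left h1 hl.le
  have h4 := mul_le_mul_of_nonneg_left h2 hl.le
  have e3 : l * ((1 - ε) * (t / l)) = (1 - ε) * t := by field_simp
  rw [e3] at h3 h4
  constructor <;> linarith

/-- Gram determinant -/
noncomputable def gram (κ₁ κ₂ : E) : ℝ := ‖κ₁‖ ^ 2 * ‖κ₂‖ ^ 2 - ⟪κ₁, κ₂⟫ ^ 2

lemma exists_inner_eq {κ₁ κ₂ : E} (hD : gram κ₁ κ₂ ≠ 0) (a b : ℝ) :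
    ∃ x : E, ⟪κ₁, x⟫ = a ∧ ⟪κ₂, x⟫ = b := by
  refine ⟨((a * ‖κ₂‖ ^ 2 - b * ⟪κ₁, κ₂⟫) / gram κ₁ κ₂) • κ₁ +
    ((b * ‖κ₁‖ ^ 2 - a * ⟪κ₁, κ₂⟫) / gram κ₁ κ₂) • κ₂, ?_, ?_⟩
  · rw [inner_add_right, inner_smul_right, inner_smul_right, real_inner_self_eq_norm_sq]
    field_simp
    unfold gram; ring
  · rw [inner_add_right, inner_smul_right, inner_smul_right, real_inner_self_eq_norm_sq,
      real_inner_comm κ₁ κ₂]
    field_simp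
    unfold gram; ring

lemma gram_ne_left {κ₁ κ₂ : E} (hD : gram κ₁ κ₂ ≠ 0) : κ₁ ≠ 0 := by
  rintro rfl; simp [gram] at hD

lemma gram_ne_right {κ₁ κ₂ : E} (hD : gram κ₁ κ₂ ≠ 0) : κ₂ ≠ 0 := by
  rintro rfl; simp [gram] at hD

lemma gram_ne_add {κ₁ κ₂ : E} (hD : gram κ₁ κ₂ ≠ 0) : κ₁ + κ₂ ≠ 0 := by
  intro h
  have : κ₂ = - κ₁ := by rw [eq_neg_iff_add_eq_zero, add_comm]; exact h
  subst this
  apply hD
  unfold gram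
  rw [norm_neg, inner_neg_right, real_inner_self_eq_norm_sq]; ring

lemma gram_neg_neg (κ₁ κ₂ : E) : gram (-κ₁) (-κ₂) = gram κ₁ κ₂ := by
  simp [gram]

lemma gram_comm (κ₁ κ₂ : E) : gram κ₁ κ₂ = gram κ₂ κ₁ := by
  unfold gram; rw [real_inner_comm]; ring

/-- the key inequality -/
lemma key_ineq {κ₁ κ₂ : E} (hD : gram κ₁ κ₂ ≠ 0) (p₁ p₂ s₁ s₂ t : ℝ) (ht : 0 ≤ t) :
    (O.A κ₁ p₁ (s₁ + t) - O.A κ₁ p₁ s₁) + (O.A κ₂ p₂ (s₂ + t) - O.A κ₂ p₂ s₂) ≤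
      t + (1 / 2) * (O.A (κ₁ + κ₂) (p₁ + p₂) (s₁ + s₂ + 2 * t)
        - O.A (κ₁ + κ₂) (p₁ + p₂) (s₁ + s₂)) := by
  obtain ⟨x, hx1, hx2⟩ := exists_inner_eq hD s₁ s₂
  obtain ⟨z, hz1, hz2⟩ := exists_inner_eq hD 1 1
  have hκ₁ := gram_ne_left hD
  have hκ₂ := gram_ne_right hD
  have hκ₃ := gram_ne_add hD
  have hl1 : IsLip (fun y : E => max ⟪κ₁, y⟫ p₁ + max ⟪κ₂, y⟫ p₂) :=
    (isLip_max κ₁ p₁).add (isLip_max κ₂ p₂)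
  have hl3 : IsLip (fun y : E => (1 / 2 : ℝ) * max ⟪κ₁ + κ₂, y⟫ (p₁ + p₂)) :=
    (isLip_max (κ₁ + κ₂) (p₁ + p₂)).smul _
  have hl2 : IsLip (fun y : E => ⟪κ₁, y⟫ + (1 / 2 : ℝ) * max ⟪κ₁ + κ₂, y⟫ (p₁ + p₂)) :=
    (isLip_inner κ₁).add hl3
  have h := O.mono hl1 hl2 (v := z) (fun y t ht => ?_) x t ht
  · rw [O.add _ _ (isLip_max κ₁ p₁) (isLip_max κ₂ p₂), O.add _ _ (isLip_max κ₁ p₁) (isLip_max κ₂ p₂),
      O.add _ _ (isLip_inner κ₁) hl3, O.add _ _ (isLip_inner κ₁) hl3,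
      O.smul _ _ (isLip_max (κ₁ + κ₂) (p₁ + p₂)), O.smul _ _ (isLip_max (κ₁ + κ₂) (p₁ + p₂)),
      O.lin, O.lin, O.A_inner hκ₁, O.A_inner hκ₁, O.A_inner hκ₂, O.A_inner hκ₂, O.A_inner hκ₃,
      O.A_inner hκ₃] at h
    have e1 : ⟪κ₁, x + t • z⟫ = s₁ + t := by
      rw [inner_add_right, inner_smul_right, hx1, hz1, mul_one]
    have e2 : ⟪κ₂, x + t • z⟫ = s₂ + t := by
      rw [inner_add_right, inner_smul_right, hx2, hz2, mul_one]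
    have e3 : ⟪κ₁ + κ₂, x + t • z⟫ = s₁ + s₂ + 2 * t := by
      rw [inner_add_left, e1, e2]; ring
    have e4 : ⟪κ₁ + κ₂, x⟫ = s₁ + s₂ := by
      rw [inner_add_left, hx1, hx2]
    rw [e1, e2, e3, e4, hx1, hx2] at h
    linarith
  · have e1 : ⟪κ₁, y + t • z⟫ = ⟪κ₁, y⟫ + t := by
      rw [inner_add_right, inner_smul_right, hz1, mul_one]
    have e2 : ⟪κ₂, y + t • z⟫ = ⟪κ₂, y⟫ + t := by
      rw [inner_add_right, inner_smul_right, hz2, mul_one]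
    have e3 : ⟪κ₁ + κ₂, y + t • z⟫ = ⟪κ₁, y⟫ + ⟪κ₂, y⟫ + 2 * t := by
      rw [inner_add_left, e1, e2]; ring
    have e4 : ⟪κ₁ + κ₂, y⟫ = ⟪κ₁, y⟫ + ⟪κ₂, y⟫ := by
      rw [inner_add_left]
    have := max_ineq_two ⟪κ₁, y⟫ ⟪κ₂, y⟫ p₁ p₂ t ht
    simp only [e1, e2, e3, e4]
    linarith

/-- combination rule -/
lemma Good.combine {κ₁ κ₂ : E} (hD : gram κ₁ κ₂ ≠ 0) {s₁ s₂ p₁ p₂ ε₁ ε₂ : ℝ}
    (h₁ : O.Good κ₁ s₁ p₁ ε₁) (h₂ : O.Good κ₂ s₂ p₂ ε₂) :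
    O.Good (κ₁ + κ₂) (s₁ + s₂) (p₁ + p₂) (ε₁ + ε₂) := by
  obtain ⟨r₁, hr₁, h₁⟩ := h₁
  obtain ⟨r₂, hr₂, h₂⟩ := h₂
  refine ⟨min r₁ r₂, lt_min hr₁ hr₂, fun t ht htr => ?_⟩
  have ht1 : t / 2 < r₁ := by have := (lt_min_iff.1 htr).1; linarith
  have ht2 : t / 2 < r₂ := by have := (lt_min_iff.1 htr).2; linarith
  obtain ⟨a1, a2⟩ := h₁ (t / 2) (by positivity) ht1
  obtain ⟨b1, b2⟩ := h₂ (t / 2) (by positivity) ht2
  have k1 := O.key_ineq hD p₁ p₂ s₁ s₂ (t / 2) (by positivity)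
  have k2 := O.key_ineq hD p₁ p₂ (s₁ - t / 2) (s₂ - t / 2) (t / 2) (by positivity)
  have e1 : s₁ + s₂ + 2 * (t / 2) = s₁ + s₂ + t := by ring
  have e2 : s₁ - t / 2 + (s₂ - t / 2) + 2 * (t / 2) = s₁ + s₂ := by ring
  have e3 : s₁ - t / 2 + (s₂ - t / 2) = s₁ + s₂ - t := by ring
  rw [e1] at k1
  rw [e2, e3, sub_add_cancel, sub_add_cancel] at k2
  constructor <;> nlinarith

/-- exclusion rule -/
lemma Good.exclusion {κ : E} (hκ : κ ≠ 0) {s p q ε ε' : ℝ} (h₁ : O.Good κ s p ε)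
    (h₂ : O.Good (-κ) (-s) (-q) ε') (hqp : q ≤ p) : 1 ≤ ε + ε' := by
  obtain ⟨r₁, hr₁, h₁⟩ := h₁
  obtain ⟨r₂, hr₂, h₂⟩ := h₂
  obtain ⟨t, ht, htr⟩ := exists_between (lt_min hr₁ hr₂)
  obtain ⟨a1, -⟩ := h₁ t ht (lt_min_iff.1 htr).1
  obtain ⟨-, b2⟩ := h₂ t ht (lt_min_iff.1 htr).2
  have hκ' : -κ ≠ 0 := neg_ne_zero.2 hκ
  obtain ⟨x, hx1⟩ : ∃ x : E, ⟪κ, x⟫ = s := ⟨_, inner_div_smul hκ s⟩
  obtain ⟨z, hz1⟩ : ∃ z : E, ⟪κ, z⟫ = 1 := ⟨_, inner_div_smul hκ 1⟩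
  have h := O.mono (isLip_max κ p)
    ((isLip_inner κ).add (isLip_max (-κ) (-q))) (v := z) (fun y t ht => ?_) x t ht.le
  · rw [O.add _ _ (isLip_inner κ) (isLip_max (-κ) (-q)),
      O.add _ _ (isLip_inner κ) (isLip_max (-κ) (-q)), O.lin, O.lin, O.A_inner hκ, O.A_inner hκ,
      O.A_inner hκ', O.A_inner hκ'] at h
    have e1 : ⟪κ, x + t • z⟫ = s + t := by
      rw [inner_add_right, inner_smul_right, hx1, hz1, mul_one]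
    have e2 : ⟪-κ, x + t • z⟫ = -s - t := by
      rw [inner_neg_left, e1]; ring
    have e3 : ⟪-κ, x⟫ = -s := by
      rw [inner_neg_left, hx1]
    rw [e1, e2, e3, hx1] at h
    nlinarith
  · have e1 : ⟪κ, y + t • z⟫ = ⟪κ, y⟫ + t := by
      rw [inner_add_right, inner_smul_right, hz1, mul_one]
    have e2 : ⟪-κ, y + t • z⟫ = -(⟪κ, y⟫ + t) := by
      rw [inner_neg_left, e1]
    have e3 : ⟪-κ, y⟫ = -⟪κ, y⟫ := by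
      rw [inner_neg_left]
    have := max_ineq_excl ⟪κ, y⟫ p q t ht hqp
    simp only [e1, e2, e3]
    linarith

end CoreOp

end Pool.Agent.MPcf641d
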