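import Mathlib
import Pool.Agent.MPcf641d.Ridge

/-!
Existence of near-Dirac points, for `MP_cf641d_an`.
-/

set_option linter.unusedSectionVars false

namespace Pool.Agent.MPcf641d

open Set Filter Topology
open scoped RealInnerProductSpace

variable {E : Type*} [NormedAddCommGroup E] [InnerProductSpace ℝ E]

/-- truncation to `[p, q]` -/
noncomputable def clamp (p q s : ℝ) : ℝ := max (min s q) p

lemma clamp_of_le {p q s : ℝ} (h : s ≤ p) : clamp p q s = p :=
  max_eq_right ((min_le_left _ _).trans h)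

lemma clamp_of_ge {p q s : ℝ} (hpq : p ≤ q) (h : q ≤ s) : clamp p q s = q := by
  unfold clamp; rw [min_eq_right h, max_eq_left hpq]

lemma clamp_of_mem {p q s : ℝ} (h1 : p ≤ s) (h2 : s ≤ q) : clamp p q s = s := by
  unfold clamp; rw [min_eq_left h2, max_eq_left h1]

lemma clamp_mono (p q : ℝ) {a b : ℝ} (hab : a ≤ b) : clamp p q a ≤ clamp p q b :=
  max_le_max (min_le_min hab le_rfl) le_rfl

lemma clamp_sub_le (p q : ℝ) {a b : ℝ} (hab : a ≤ b) : clamp p q b - clamp p q a ≤ b - a := by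
  unfold clamp
  rcases min_cases a q with ⟨h1, h2⟩ | ⟨h1, h2⟩ <;>
  rcases min_cases b q with ⟨h3, h4⟩ | ⟨h3, h4⟩ <;>
  rcases max_cases (min a q) p with ⟨h5, h6⟩ | ⟨h5, h6⟩ <;>
  rcases max_cases (min b q) p with ⟨h7, h8⟩ | ⟨h7, h8⟩ <;> linarith

lemma clamp_sub_le_max (p q : ℝ) {a b : ℝ} (hab : a ≤ b) :
    clamp p q b - clamp p q a ≤ max b p - max a p := by
  unfold clamp
  rcases min_cases a q with ⟨h1, h2⟩ | ⟨h1, h2⟩ <;>
  rcases min_cases b q with ⟨h3, h4⟩ | ⟨h3, h4⟩ <;>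
  rcases max_cases (min a q) p with ⟨h5, h6⟩ | ⟨h5, h6⟩ <;>
  rcases max_cases (min b q) p with ⟨h7, h8⟩ | ⟨h7, h8⟩ <;>
  rcases max_cases a p with ⟨h9, h10⟩ | ⟨h9, h10⟩ <;>
  rcases max_cases b p with ⟨h11, h12⟩ | ⟨h11, h12⟩ <;> linarith

lemma clamp_sub_le_min {p q : ℝ} (hpq : p ≤ q) {a b : ℝ} (hab : a ≤ b) :
    clamp p q b - clamp p q a + (max (-b) (-q) - max (-a) (-q)) ≤ 0 := by
  unfold clamp
  rcases min_cases a q with ⟨h1, h2⟩ | ⟨h1, h2⟩ <;>
  rcases min_cases b q with ⟨h3, h4⟩ | ⟨h3, h4⟩ <;>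
  rcases max_cases (min a q) p with ⟨h5, h6⟩ | ⟨h5, h6⟩ <;>
  rcases max_cases (min b q) p with ⟨h7, h8⟩ | ⟨h7, h8⟩ <;>
  rcases max_cases (-a) (-q) with ⟨h9, h10⟩ | ⟨h9, h10⟩ <;>
  rcases max_cases (-b) (-q) with ⟨h11, h12⟩ | ⟨h11, h12⟩ <;> linarith

lemma lipR_clamp (p q : ℝ) : LipR 1 (clamp p q) := fun a b => by
  rw [one_mul]
  rcases le_total a b with hab | hab
  · have := clamp_mono p q hab
    have := abs_nonneg (a - b)
    linarith
  · exact (clamp_sub_le p q hab).trans (le_abs_self _)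

lemma isLip_clamp (κ : E) (p q : ℝ) : IsLip (fun x : E => clamp p q ⟪κ, x⟫) :=
  isLip_ridge zero_le_one (lipR_clamp p q) κ

/-- local inequality for the stretched function -/
lemma theta_local {p q m D u u₀ : ℝ} (hpq : p < q) (hm : 0 < m) (hu : u - u₀ ≤ D)
    (hc : clamp p q u - clamp p q u₀ ≤ m * D)
    (h1 : u₀ < p → u < p) (h2 : p < u₀ → p < u) (h3 : u₀ < q → u < q) (h4 : q < u₀ → q < u) :
    (u + (1 / m - 1) * clamp p q u) - (u₀ + (1 / m - 1) * clamp p q u₀) ≤ D := by
  have hcase : (u ≤ p ∧ u₀ ≤ p) ∨ (p ≤ u ∧ u ≤ q ∧ p ≤ u₀ ∧ u₀ ≤ q) ∨ (q ≤ u ∧ q ≤ u₀) := by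
    rcases lt_trichotomy u₀ p with h | h | h
    · exact Or.inl ⟨(h1 h).le, h.le⟩
    · rcases le_total u p with h' | h'
      · exact Or.inl ⟨h', h.le⟩
      · exact Or.inr (Or.inl ⟨h', (h3 (by linarith)).le, h.ge, by linarith⟩)
    · rcases lt_trichotomy u₀ q with h' | h' | h'
      · exact Or.inr (Or.inl ⟨(h2 h).le, (h3 h').le, h.le, h'.le⟩)
      · rcases le_total u q with h'' | h''
        · exact Or.inr (Or.inl ⟨(h2 h).le, h'', h.le, h'.le⟩)
        · exact Or.inr (Or.inr ⟨h'', h'.ge⟩)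
      · exact Or.inr (Or.inr ⟨(h4 h').le, h'.le⟩)
  rcases hcase with ⟨a, b⟩ | ⟨a, b, c, d⟩ | ⟨a, b⟩
  · rw [clamp_of_le a, clamp_of_le b]; linarith
  · rw [clamp_of_mem a b, clamp_of_mem c d] at hc ⊢
    have : (u - u₀) / m ≤ D := by rw [div_le_iff₀ hm]; linarith
    calc _ = (u - u₀) / m := by ring
      _ ≤ D := this
  · rw [clamp_of_ge hpq.le a, clamp_of_ge hpq.le b]; linarith

lemma lip_theta {G : E → ℝ} {p q m : ℝ} (hpq : p < q) (hm : 0 < m) (hG : LipB 1 G)
    (hc : LipB m (fun x => clamp p q (G x))) :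
    LipB 1 (fun x => G x + (1 / m - 1) * clamp p q (G x)) := by
  have hGc : Continuous G := IsLip.continuous ⟨1, hG⟩
  have hCc : Continuous (fun x => clamp p q (G x)) := IsLip.continuous ⟨m, hc⟩
  have hθc : Continuous (fun x => G x + (1 / m - 1) * clamp p q (G x)) :=
    hGc.add (continuous_const.mul hCc)
  have hloc : ∀ z₀ : E, ∀ᶠ z in 𝓝 z₀,
      (G z + (1 / m - 1) * clamp p q (G z)) - (G z₀ + (1 / m - 1) * clamp p q (G z₀))
        ≤ ‖z - z₀‖ := by
    intro z₀
    have e1 : ∀ᶠ z in 𝓝 z₀, (G z₀ < p → G z < p) := by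
      by_cases h : G z₀ < p
      · filter_upwards [hGc.continuousAt.eventually_lt_const h] with z hz _ using hz
      · exact Eventually.of_forall fun z hz => absurd hz h
    have e2 : ∀ᶠ z in 𝓝 z₀, (p < G z₀ → p < G z) := by
      by_cases h : p < G z₀
      · filter_upwards [hGc.continuousAt.eventually_const_lt h] with z hz _ using hz
      · exact Eventually.of_forall fun z hz => absurd hz h
    have e3 : ∀ᶠ z in 𝓝 z₀, (G z₀ < q → G z < q) := by
      by_cases h : G z₀ < q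
      · filter_upwards [hGc.continuousAt.eventually_lt_const h] with z hz _ using hz
      · exact Eventually.of_forall fun z hz => absurd hz h
    have e4 : ∀ᶠ z in 𝓝 z₀, (q < G z₀ → q < G z) := by
      by_cases h : q < G z₀
      · filter_upwards [hGc.continuousAt.eventually_const_lt h] with z hz _ using hz
      · exact Eventually.of_forall fun z hz => absurd hz h
    filter_upwards [e1, e2, e3, e4] with z h1 h2 h3 h4
    refine theta_local hpq hm ?_ (hc z z₀) h1 h2 h3 h4
    have := hG z z₀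
    linarith
  intro x y
  set c : ℝ → E := fun t => y + t • (x - y) with hcdef
  have hcc : Continuous c := by fun_prop
  have hf : Continuous (fun t : ℝ => t * ‖x - y‖ -
      (G (c t) + (1 / m - 1) * clamp p q (G (c t)))) := by
    have : Continuous (fun t : ℝ => G (c t) + (1 / m - 1) * clamp p q (G (c t))) :=
      hθc.comp hcc
    fun_prop
  have h := le_of_right_local hf (fun t₀ => ?_) zero_le_one
  · have hc0 : c 0 = y := by simp [hcdef]
    have hc1 : c 1 = x := by simp [hcdef]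
    simp only [hc0, hc1] at h
    simp only
    linarith
  · have h1 : ∀ᶠ t in 𝓝 t₀, (G (c t) + (1 / m - 1) * clamp p q (G (c t))) -
        (G (c t₀) + (1 / m - 1) * clamp p q (G (c t₀))) ≤ ‖c t - c t₀‖ :=
      hcc.continuousAt.eventually (hloc (c t₀))
    filter_upwards [nhdsWithin_le_nhds h1, self_mem_nhdsWithin] with t ht htt
    have h2 : c t - c t₀ = (t - t₀) • (x - y) := by
      simp only [hcdef]; rw [sub_smul]; abel
    rw [h2, norm_smul, Real.norm_eq_abs, abs_of_pos (sub_pos.2 htt)] at ht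
    linarith

namespace CoreOp

variable (O : CoreOp E)

/-- `Near` predicate -/
def Near (κ : E) (s e δ ε : ℝ) : Prop :=
  O.Good κ s (e - δ) ε ∧ O.Good (-κ) (-s) (-e - δ) ε

lemma exists_lt (k : E) (hk : k ≠ 0) : ∃ x₁ x₂, ⟪k, O.g x₁⟫ < ⟪k, O.g x₂⟫ := by
  by_contra hcon
  push Not at hcon
  have h0 : LipB 0 (fun x => (fun y => ⟪k, y⟫) (O.g x)) := fun x y => by
    have := hcon y x
    simp only
    linarith
  rw [← O.lip_iff _ (isLip_inner k)] at h0
  have h1 := h0 k 0
  rw [O.lin, O.lin, inner_zero_right, real_inner_self_eq_norm_sq] at h1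
  have : 0 < ‖k‖ := norm_pos_iff.2 hk
  nlinarith

lemma not_lipB_clamp {k : E} (hk : ‖k‖ = 1) {x₁ x₂ : E} {e δ : ℝ} (h1 : ⟪k, O.g x₁⟫ < e)
    (h2 : e < ⟪k, O.g x₂⟫) (hδ : 0 < δ) {m : ℝ} (hm0 : 0 < m) (hm1 : m < 1) :
    ¬ LipB m (O.U (fun x => clamp (e - δ) (e + δ) ⟪k, x⟫)) := by
  intro hcon
  set p := e - δ with hp
  set q := e + δ with hq
  have hpq : p < q := by rw [hp, hq]; linarith
  have hcl : IsLip (fun x : E => clamp p q ⟪k, x⟫) := isLip_clamp k p q
  rw [O.lip_iff _ hcl] at hcon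
  have hG : LipB 1 (fun x => ⟪k, O.g x⟫) := fun x y => by
    have h3 := lipB_inner k (O.g x) (O.g y)
    rw [hk, one_mul] at h3
    have := O.g_lip x y
    simp only at h3 ⊢
    linarith
  have hθ := lip_theta hpq hm0 hG hcon
  have hθL : IsLip (fun x : E => ⟪k, x⟫ + (1 / m - 1) * clamp p q ⟪k, x⟫) :=
    (isLip_inner k).add (hcl.smul _)
  have hU : LipB 1 (O.U (fun x : E => ⟪k, x⟫ + (1 / m - 1) * clamp p q ⟪k, x⟫)) := by
    rw [O.lip_iff _ hθL]; exact hθ
  have hpos : 0 < 1 / m - 1 := by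
    rw [sub_pos, lt_div_iff₀ hm0]; linarith
  have hconst : LipB 0 (O.U (fun x : E => clamp p q ⟪k, x⟫)) := by
    intro y x
    rw [zero_mul]
    rcases le_total ⟪k, x⟫ ⟪k, y⟫ with hxy | hxy
    · set t := ⟪k, y⟫ - ⟪k, x⟫ with ht
      have ht0 : 0 ≤ t := by linarith
      have h3 := hU (x + t • k) x
      rw [O.add _ _ (isLip_inner k) (hcl.smul _), O.add _ _ (isLip_inner k) (hcl.smul _),
        O.smul _ _ hcl, O.smul _ _ hcl, O.lin, O.lin, add_sub_cancel_left, norm_smul, hk,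
        Real.norm_eq_abs, abs_of_nonneg ht0, inner_add_right, inner_smul_right,
        real_inner_self_eq_norm_sq, hk] at h3
      have h4 : O.U (fun x : E => clamp p q ⟪k, x⟫) (x + t • k) =
          O.U (fun x : E => clamp p q ⟪k, x⟫) y :=
        O.ridge_inv hcl (by
          rw [inner_add_right, inner_smul_right, real_inner_self_eq_norm_sq, hk, ht]; ring)
      rw [h4] at h3
      nlinarith
    · have := O.ridge_slope_le (κ := k) (φ := fun s => - clamp p q s) (c := 0) hcl.neg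
        (fun a b hab => by have := clamp_mono p q hab; linarith) hxy
      have h5 := O.smul (-1) _ hcl
      have h6 : (fun x : E => - clamp p q ⟪k, x⟫) = (fun x => (-1) * clamp p q ⟪k, x⟫) := by
        funext x; ring
      rw [h6, h5, h5] at this
      linarith
  rw [O.lip_iff _ hcl] at hconst
  have h3 := hconst x₂ x₁
  rw [zero_mul] at h3
  have h4 : clamp p q ⟪k, O.g x₁⟫ < e := by
    unfold clamp
    apply max_lt _ (by rw [hp]; linarith)
    exact lt_of_le_of_lt (min_le_left _ _) h1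
  have h5 : e < clamp p q ⟪k, O.g x₂⟫ := by
    unfold clamp
    apply lt_max_of_lt_left
    exact lt_min h2 (by rw [hq]; linarith)
  linarith

/-- Existence of near-Dirac points. -/
lemma exists_near_unit {k : E} (hk : ‖k‖ = 1) {x₁ x₂ : E} {e : ℝ} (h1 : ⟪k, O.g x₁⟫ < e)
    (h2 : e < ⟪k, O.g x₂⟫) {δ ε : ℝ} (hδ : 0 < δ) (hε : 0 < ε) :
    ∃ s, O.Near k s e δ ε := by
  have hk0 : k ≠ 0 := by rintro rfl; simp at hk
  have hk0' : -k ≠ 0 := neg_ne_zero.2 hk0
  wlog hε1 : ε < 1 generalizing ε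
  · obtain ⟨s, hs1, hs2⟩ := this (ε := 1 / 2) (by norm_num) (by norm_num)
    exact ⟨s, hs1.mono_eps O (by linarith), hs2.mono_eps O (by linarith)⟩
  set p := e - δ with hp
  set q := e + δ with hq
  have hpq : p < q := by rw [hp, hq]; linarith
  have hcl : IsLip (fun x : E => clamp p q ⟪k, x⟫) := isLip_clamp k p q
  have hn := O.not_lipB_clamp hk h1 h2 hδ (m := 1 - ε) (by linarith) (by linarith)
  rw [← hp, ← hq] at hn
  unfold LipB at hn
  push Not at hn
  obtain ⟨x, y, hxy⟩ := hn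
  set B : ℝ → ℝ := fun s => O.U (fun x : E => clamp p q ⟪k, x⟫) (s • k) with hB
  have hin : ∀ s : ℝ, ⟪k, s • k⟫ = s := fun s => by
    rw [inner_smul_right, real_inner_self_eq_norm_sq, hk]; ring
  have hBx : ∀ x, O.U (fun x : E => clamp p q ⟪k, x⟫) x = B ⟪k, x⟫ := fun x =>
    O.ridge_inv hcl (hin _).symm
  have hBmono : Monotone B := by
    intro a b hab
    have := O.ridge_slope_le (κ := k) (φ := fun s => - clamp p q s) (c := 0) hcl.neg
      (fun a b hab => by have := clamp_mono p q hab; linarith) (x := a • k) (y := b • k)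
      (by rw [hin, hin]; exact hab)
    have h5 := O.smul (-1) _ hcl
    have h6 : (fun x : E => - clamp p q ⟪k, x⟫) = (fun x => (-1) * clamp p q ⟪k, x⟫) := by
      funext x; ring
    rw [h6, h5, h5] at this
    simp only [hB]
    linarith
  have hBlip : ∀ s t, s ≤ t → B t - B s ≤ t - s := by
    intro a b hab
    have := O.ridge_slope_le (κ := k) (φ := fun s => clamp p q s) (c := 1) hcl
      (fun a b hab => by have := clamp_sub_le p q hab; linarith) (x := a • k) (y := b • k)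
      (by rw [hin, hin]; exact hab)
    rw [hin, hin, one_mul] at this
    exact this
  rw [hBx x, hBx y] at hxy
  have habs : |⟪k, x⟫ - ⟪k, y⟫| ≤ ‖x - y‖ := by
    rw [← inner_sub_right]
    have := abs_real_inner_le_norm k (x - y)
    rwa [hk, one_mul] at this
  have h3 : (1 - ε) * |⟪k, x⟫ - ⟪k, y⟫| < B ⟪k, x⟫ - B ⟪k, y⟫ :=
    lt_of_le_of_lt (mul_le_mul_of_nonneg_left habs (by linarith)) hxy
  have hlt : ⟪k, y⟫ < ⟪k, x⟫ := by
    by_contra hcon
    push Not at hcon
    have h4 := hBmono hcon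
    have h5 : 0 ≤ (1 - ε) * |⟪k, x⟫ - ⟪k, y⟫| := mul_nonneg (by linarith) (abs_nonneg _)
    linarith
  rw [abs_of_pos (sub_pos.2 hlt)] at h3
  obtain ⟨s, r, hr, hs⟩ := exists_steep hBmono hBlip hlt h3
  refine ⟨s, ⟨r, hr, fun t ht htr => ?_⟩, ⟨r, hr, fun t ht htr => ?_⟩⟩
  · obtain ⟨a1, a2⟩ := hs t ht htr
    have key : ∀ a b : ℝ, a ≤ b → B b - B a ≤ O.A k p b - O.A k p a := by
      intro a b hab
      have h5 := O.ridge_mono (κ := k) (φ₁ := fun s => clamp p q s) (φ₂ := fun s => max s p)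
        hcl (isLip_max k p) (fun a b hab => clamp_sub_le_max p q hab)
        (x := a • k) (y := b • k) (by rw [hin, hin]; exact hab)
      rw [O.A_inner hk0 p, O.A_inner hk0 p, hin, hin] at h5
      exact h5
    have h5 := key s (s + t) (by linarith)
    have h6 := key (s - t) s (by linarith)
    constructor <;> linarith
  · obtain ⟨a1, a2⟩ := hs t ht htr
    have key : ∀ a b : ℝ, a ≤ b → B b - B a ≤ O.A (-k) (-q) (-a) - O.A (-k) (-q) (-b) := by
      intro a b hab
      have hl := hcl.add (isLip_max (-k) (-q))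
      have h5 := O.slope hl (v := k) (c := 0) (fun z t ht => ?_) (a • k) (b - a) (by linarith)
      · rw [O.add _ _ hcl (isLip_max (-k) (-q)), O.add _ _ hcl (isLip_max (-k) (-q)),
          O.A_inner hk0', O.A_inner hk0', hBx, hBx, ← add_smul, add_sub_cancel, hin, hin,
          inner_neg_left, inner_neg_left, hin, hin] at h5
        linarith
      · have e1 : ⟪k, z + t • k⟫ = ⟪k, z⟫ + t := by
          rw [inner_add_right, hin]
        have := clamp_sub_le_min hpq.le (a := ⟪k, z⟫) (b := ⟪k, z⟫ + t) (by linarith)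
        simp only [inner_neg_left, e1]
        linarith
    have e0 : -e - δ = -q := by rw [hq]; ring
    rw [e0]
    have h5 := key s (s + t) (by linarith)
    have h6 := key (s - t) s (by linarith)
    have e1 : -(s + t) = -s - t := by ring
    have e2 : -(s - t) = -s + t := by ring
    rw [e1] at h5
    rw [e2] at h6
    constructor <;> linarith

end CoreOp

end Pool.Agent.MPcf641d
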