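import Mathlib
import Pool.Agent.MPcf641d.Exist

/-!
Near-Dirac points in every direction and position, and the affine law, for `MP_cf641d_an`.
-/

set_option linter.unusedSectionVars false

namespace Pool.Agent.MPcf641d

open Set Filter Topology
open scoped RealInnerProductSpace

variable {E : Type*} [NormedAddCommGroup E] [InnerProductSpace ℝ E]

namespace CoreOp

lemma gram_smul_right (κ₁ κ₂ : E) (l : ℝ) : gram κ₁ (l • κ₂) = l ^ 2 * gram κ₁ κ₂ := by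
  unfold gram
  rw [norm_smul, inner_smul_right, mul_pow, Real.norm_eq_abs, sq_abs]; ring

lemma gram_smul_left (κ₁ κ₂ : E) (l : ℝ) : gram (l • κ₁) κ₂ = l ^ 2 * gram κ₁ κ₂ := by
  rw [gram_comm, gram_smul_right, gram_comm]

lemma gram_add_self (κ₁ κ₂ : E) : gram (κ₁ + κ₂) κ₁ = gram κ₁ κ₂ := by
  unfold gram
  rw [@norm_add_sq_real, inner_add_left, real_inner_self_eq_norm_sq, real_inner_comm κ₁ κ₂]
  ring

lemma gram_neg_right (κ₁ κ₂ : E) : gram κ₁ (-κ₂) = gram κ₁ κ₂ := by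
  simp [gram]

lemma gram_eq_zero {κ₁ κ₂ : E} (h1 : κ₁ ≠ 0) (h : gram κ₁ κ₂ = 0) : ∃ μ : ℝ, κ₂ = μ • κ₁ := by
  have hn : ‖κ₁‖ ≠ 0 := norm_ne_zero_iff.2 h1
  refine ⟨⟪κ₁, κ₂⟫ / ‖κ₁‖ ^ 2, ?_⟩
  rw [← sub_eq_zero, ← norm_eq_zero, ← sq_eq_zero_iff, @norm_sub_sq_real, norm_smul, mul_pow,
    inner_smul_right, real_inner_comm κ₁ κ₂, Real.norm_eq_abs, sq_abs]
  unfold gram at h
  field_simp
  nlinarith

variable (O : CoreOp E)

variable {O} in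
lemma Near.mono {κ : E} (hκ : κ ≠ 0) {s e δ ε δ' ε' : ℝ} (h : O.Near κ s e δ ε) (hδ : δ ≤ δ')
    (hε : ε ≤ ε') : O.Near κ s e δ' ε' :=
  ⟨(h.1.mono_p O hκ (by linarith)).mono_eps O hε,
    (h.2.mono_p O (neg_ne_zero.2 hκ) (by linarith)).mono_eps O hε⟩

variable {O} in
lemma Near.shift {κ : E} (hκ : κ ≠ 0) {s e e' δ ε η : ℝ} (h : O.Near κ s e δ ε)
    (hη : |e - e'| ≤ η) : O.Near κ s e' (δ + η) ε := by
  obtain ⟨h1, h2⟩ := abs_le.1 hη
  exact ⟨h.1.mono_p O hκ (by linarith), h.2.mono_p O (neg_ne_zero.2 hκ) (by linarith)⟩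

variable {O} in
lemma Near.neg {κ : E} {s e δ ε : ℝ} (h : O.Near κ s e δ ε) : O.Near (-κ) (-s) (-e) δ ε := by
  refine ⟨h.2, ?_⟩
  rw [neg_neg, neg_neg, neg_neg]
  exact h.1

variable {O} in
lemma Near.scale_pos {κ : E} (hκ : κ ≠ 0) {s e δ ε l : ℝ} (hl : 0 < l) (h : O.Near κ s e δ ε) :
    O.Near (l • κ) (l * s) (l * e) (l * δ) ε := by
  have h1 := h.1.scale O hκ hl
  have h2 := h.2.scale O (neg_ne_zero.2 hκ) hl
  rw [smul_neg] at h2
  refine ⟨?_, ?_⟩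
  · convert h1 using 1; ring
  · convert h2 using 1 <;> ring

variable {O} in
lemma Near.scale {κ : E} (hκ : κ ≠ 0) {s e δ ε l : ℝ} (hl : l ≠ 0) (h : O.Near κ s e δ ε) :
    O.Near (l • κ) (l * s) (l * e) (|l| * δ) ε := by
  rcases lt_or_gt_of_ne hl with hl' | hl'
  · have h1 := (h.scale_pos hκ (neg_pos.2 hl')).neg
    rw [abs_of_neg hl']
    convert h1 using 1
    · rw [neg_smul, neg_neg]
    · ring
    · ring
  · rw [abs_of_pos hl']; exact h.scale_pos hκ hl'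

variable {O} in
lemma Near.add {κ₁ κ₂ : E} (hD : gram κ₁ κ₂ ≠ 0) {s₁ e₁ δ₁ ε₁ s₂ e₂ δ₂ ε₂ : ℝ}
    (h₁ : O.Near κ₁ s₁ e₁ δ₁ ε₁) (h₂ : O.Near κ₂ s₂ e₂ δ₂ ε₂) :
    O.Near (κ₁ + κ₂) (s₁ + s₂) (e₁ + e₂) (δ₁ + δ₂) (ε₁ + ε₂) := by
  have hD' : gram (-κ₁) (-κ₂) ≠ 0 := by rw [gram_neg_neg]; exact hD
  have h1 := h₁.1.combine O hD h₂.1
  have h2 := h₁.2.combine O hD' h₂.2
  refine ⟨?_, ?_⟩
  · convert h1 using 1; ring
  · convert h2 using 1
    · abel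
    · ring
    · ring

variable {O} in
lemma Near.uniq {κ : E} (hκ : κ ≠ 0) {s e δ ε e' δ' ε' : ℝ} (h : O.Near κ s e δ ε)
    (h' : O.Near κ s e' δ' ε') (hε : ε + ε' < 1) : |e - e'| ≤ δ + δ' := by
  rw [abs_le]
  constructor
  · by_contra hcon
    push Not at hcon
    have h1 := h'.1
    have h2 := h.2
    have e1 : -e - δ = -(e + δ) := by ring
    rw [e1] at h2
    have := h1.exclusion O hκ h2 (by linarith)
    linarith
  · by_contra hcon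
    push Not at hcon
    have h1 := h.1
    have h2 := h'.2
    have e1 : -e' - δ' = -(e' + δ') := by ring
    rw [e1] at h2
    have := h1.exclusion O hκ h2 (by linarith)
    linarith

/-- exact (Dirac) points -/
def Exact (κ : E) (s e : ℝ) : Prop := ∀ δ ε, 0 < δ → 0 < ε → O.Near κ s e δ ε

variable {O} in
lemma Exact.uniq {κ : E} (hκ : κ ≠ 0) {s e e' : ℝ} (h : O.Exact κ s e) (h' : O.Exact κ s e') :
    e = e' := by
  have h0 : |e - e'| ≤ 0 := by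
    apply le_of_forall_pos_le_add
    intro η hη
    have h1 := h (η / 2) (1 / 4) (by positivity) (by norm_num)
    have h2 := h' (η / 2) (1 / 4) (by positivity) (by norm_num)
    have := h1.uniq hκ h2 (by norm_num)
    linarith
  have h1 := abs_nonpos_iff.1 h0
  linarith

variable {O} in
lemma Exact.add {κ₁ κ₂ : E} (hD : gram κ₁ κ₂ ≠ 0) {s₁ e₁ s₂ e₂ : ℝ} (h₁ : O.Exact κ₁ s₁ e₁)
    (h₂ : O.Exact κ₂ s₂ e₂) : O.Exact (κ₁ + κ₂) (s₁ + s₂) (e₁ + e₂) := by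
  intro δ ε hδ hε
  have := (h₁ (δ / 2) (ε / 2) (by positivity) (by positivity)).add hD
    (h₂ (δ / 2) (ε / 2) (by positivity) (by positivity))
  rwa [add_halves, add_halves] at this

variable {O} in
lemma Exact.scale {κ : E} (hκ : κ ≠ 0) {s e l : ℝ} (hl : l ≠ 0) (h : O.Exact κ s e) :
    O.Exact (l • κ) (l * s) (l * e) := by
  intro δ ε hδ hε
  have hl' : 0 < |l| := abs_pos.2 hl
  have := (h (δ / |l|) ε (by positivity) hε).scale hκ hl
  rwa [mul_div_cancel₀ _ hl'.ne'] at this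

/-- one step of the transfer -/
lemma transfer_step {κ₁ κ₂ : E} (hD : gram κ₁ κ₂ ≠ 0) {e e' f : ℝ} (hee : e ≠ e')
    (he : ∀ δ ε, 0 < δ → 0 < ε → ∃ s, O.Near κ₁ s e δ ε)
    (he' : ∀ δ ε, 0 < δ → 0 < ε → ∃ s, O.Near κ₁ s e' δ ε)
    (hf : ∀ δ ε, 0 < δ → 0 < ε → ∃ t, O.Near κ₂ t f δ ε) (s₀ : ℝ) {η : ℝ} (hη : 0 < η)
    (hη1 : 2 * η < 1) (hη2 : 2 * η < |e - e'|) :
    ∃ e₀, O.Near κ₂ s₀ e₀ (η * (1 + 2 * |e₀ - f| / |e - e'|)) (3 * η) := by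
  have hκ₁ := gram_ne_left hD
  have hκ₂ := gram_ne_right hD
  obtain ⟨s, hs⟩ := he η η hη hη
  obtain ⟨s', hs'⟩ := he' η η hη hη
  obtain ⟨t, ht⟩ := hf η η hη hη
  have hDpos : 0 < |e - e'| := abs_pos.2 (sub_ne_zero.2 hee)
  have hss : s - s' ≠ 0 := by
    intro h0
    have h1 : s = s' := by linarith
    subst h1
    have := hs.uniq hκ₁ hs' (by linarith)
    linarith
  by_cases hst : s₀ = t
  · subst hst
    refine ⟨f, ht.mono hκ₂ ?_ (by linarith)⟩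
    rw [sub_self, abs_zero]; simp
  · set l := (s - s') / (s₀ - t) with hl
    have hst' : s₀ - t ≠ 0 := sub_ne_zero.2 hst
    have hl0 : l ≠ 0 := div_ne_zero hss hst'
    have hlpos : 0 < |l| := abs_pos.2 hl0
    have h1 := ht.scale hκ₂ hl0
    have hD1 : gram κ₁ (l • κ₂) ≠ 0 := by
      rw [gram_smul_right]; positivity
    have h2 := hs.add hD1 h1
    have h3 := hs'.neg
    have hD2 : gram (κ₁ + l • κ₂) (-κ₁) ≠ 0 := by
      rw [gram_neg_right, gram_add_self]; exact hD1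
    have h4 := h2.add hD2 h3
    have hκ3 : κ₁ + l • κ₂ + -κ₁ = l • κ₂ := by abel
    rw [hκ3] at h4
    have h5 := h4.scale (smul_ne_zero hl0 hκ₂) (l := l⁻¹) (inv_ne_zero hl0)
    rw [smul_smul, inv_mul_cancel₀ hl0, one_smul] at h5
    refine ⟨l⁻¹ * (e + l * f + -e'), ?_⟩
    have e1 : l⁻¹ * (s + l * t + -s') = s₀ := by
      have : l⁻¹ * (s - s') = s₀ - t := by rw [hl]; field_simp
      calc l⁻¹ * (s + l * t + -s') = l⁻¹ * (s - s') + l⁻¹ * l * t := by ring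
        _ = s₀ := by rw [this, inv_mul_cancel₀ hl0]; ring
    have e2 : l⁻¹ * (e + l * f + -e') - f = l⁻¹ * (e - e') := by
      calc l⁻¹ * (e + l * f + -e') - f = l⁻¹ * (e - e') + (l⁻¹ * l - 1) * f := by ring
        _ = _ := by rw [inv_mul_cancel₀ hl0]; ring
    have e3 : |l⁻¹| * (η + |l| * η + η) = η * (1 + 2 * |l⁻¹ * (e + l * f + -e') - f| / |e - e'|) := by
      rw [e2, abs_mul, abs_inv]
      field_simp
      ring
    rw [e1, e3] at h5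
    exact h5.mono hκ₂ le_rfl (by linarith)

/-- existence of exact points -/
lemma exists_exact_aux {κ₁ κ₂ : E} (hD : gram κ₁ κ₂ ≠ 0) {e e' f : ℝ} (hee : e ≠ e')
    (he : ∀ δ ε, 0 < δ → 0 < ε → ∃ s, O.Near κ₁ s e δ ε)
    (he' : ∀ δ ε, 0 < δ → 0 < ε → ∃ s, O.Near κ₁ s e' δ ε)
    (hf : ∀ δ ε, 0 < δ → 0 < ε → ∃ t, O.Near κ₂ t f δ ε) (s₀ : ℝ) :
    ∃ e₀, O.Exact κ₂ s₀ e₀ := by
  have hκ₂ := gram_ne_right hD
  have hDpos : 0 < |e - e'| := abs_pos.2 (sub_ne_zero.2 hee)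
  set D := |e - e'| with hDdef
  set η₀ : ℝ := min (1 / 10) (D / 8) with hη₀
  have hη₀pos : 0 < η₀ := lt_min (by norm_num) (by positivity)
  have hη₀1 : η₀ ≤ 1 / 10 := min_le_left _ _
  have hη₀2 : η₀ ≤ D / 8 := min_le_right _ _
  obtain ⟨c, hc⟩ := O.transfer_step hD hee he he' hf s₀ hη₀pos (by linarith) (by linarith)
  rw [← hDdef] at hc
  set b₀ := |c - f| with hb₀
  have hb₀0 : 0 ≤ b₀ := abs_nonneg _
  set B := 2 * b₀ + 3 * η₀ with hB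
  have hB0 : 0 ≤ B := by positivity
  have claim : ∀ δ ε, 0 < δ → 0 < ε → ∃ x, |x - f| ≤ B ∧ O.Near κ₂ s₀ x δ ε := by
    intro δ ε hδ hε
    have hC : 0 < 1 + 2 * B / D := by positivity
    set η := min η₀ (min (δ / (1 + 2 * B / D)) (ε / 3)) with hη
    have hηpos : 0 < η := lt_min hη₀pos (lt_min (by positivity) (by positivity))
    have h1 : η ≤ η₀ := min_le_left _ _
    have h2 : η ≤ δ / (1 + 2 * B / D) := (min_le_right _ _).trans (min_le_left _ _)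
    have h3 : η ≤ ε / 3 := (min_le_right _ _).trans (min_le_right _ _)
    obtain ⟨x, hx⟩ := O.transfer_step hD hee he he' hf s₀ hηpos (by linarith) (by linarith)
    rw [← hDdef] at hx
    have hu := hx.uniq hκ₂ hc (by linarith)
    set b := |x - f| with hb
    have hb0 : 0 ≤ b := abs_nonneg _
    have h4 : b ≤ b₀ + |x - c| := by
      have : x - f = (x - c) + (c - f) := by ring
      rw [hb, this]
      have := abs_add_le (x - c) (c - f)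
      rw [hb₀]; linarith
    have h5 : η₀ * (1 + 2 * b₀ / D) ≤ η₀ + b₀ / 4 := by
      have : η₀ * (2 * b₀ / D) ≤ b₀ / 4 := by
        calc η₀ * (2 * b₀ / D) ≤ (D / 8) * (2 * b₀ / D) := by gcongr
          _ = b₀ / 4 := by field_simp; ring
      linarith
    have h6 : η * (1 + 2 * b / D) ≤ η₀ + b / 4 := by
      calc η * (1 + 2 * b / D) ≤ η₀ * (1 + 2 * b / D) := by gcongr
        _ = η₀ + η₀ * (2 * b / D) := by ring
        _ ≤ η₀ + (D / 8) * (2 * b / D) := by gcongr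
        _ = η₀ + b / 4 := by field_simp; ring
    have h7 : b ≤ B := by rw [hB]; linarith
    refine ⟨x, h7, hx.mono hκ₂ ?_ (by linarith)⟩
    calc η * (1 + 2 * b / D) ≤ η * (1 + 2 * B / D) := by gcongr
      _ ≤ δ := by rw [le_div_iff₀ hC] at h2; exact h2
  -- compactness
  choose x hx1 hx2 using fun n : ℕ => claim (1 / ((n : ℝ) + 1)) (1 / ((n : ℝ) + 1))
    (by positivity) (by positivity)
  have hcomp : ∀ n, x n ∈ Icc (f - B) (f + B) := fun n => by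
    have := abs_le.1 (hx1 n)
    exact ⟨by linarith [this.1], by linarith [this.2]⟩
  obtain ⟨e₀, -, φ, hφ, hlim⟩ := isCompact_Icc.tendsto_subseq hcomp
  refine ⟨e₀, fun δ ε hδ hε => ?_⟩
  have hev1 : ∀ᶠ n in atTop, |x (φ n) - e₀| ≤ δ / 2 := by
    have := (Metric.tendsto_nhds.1 hlim) (δ / 2) (by positivity)
    filter_upwards [this] with n hn
    rw [Real.dist_eq] at hn
    exact hn.le
  have h0 : Tendsto (fun n : ℕ => 1 / ((φ n : ℝ) + 1)) atTop (𝓝 0) :=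
    (tendsto_one_div_add_atTop_nhds_zero_nat (𝕜 := ℝ)).comp hφ.tendsto_atTop
  have hev2 : ∀ᶠ n in atTop, 1 / ((φ n : ℝ) + 1) < min (δ / 2) ε :=
    h0.eventually_lt_const (lt_min (by positivity) hε)
  obtain ⟨n, hn1, hn2⟩ := (hev1.and hev2).exists
  have h3 := (hx2 (φ n)).mono hκ₂ (δ' := δ / 2) (ε' := ε) ((lt_min_iff.1 hn2).1.le)
    ((lt_min_iff.1 hn2).2.le)
  have h4 := h3.shift hκ₂ hn1
  rwa [add_halves] at h4

/-- near points in an arbitrary non-zero direction -/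
lemma exists_near_dir {κ : E} (hκ : κ ≠ 0) : ∃ e e' : ℝ, e ≠ e' ∧
    (∀ δ ε, 0 < δ → 0 < ε → ∃ s, O.Near κ s e δ ε) ∧
    (∀ δ ε, 0 < δ → 0 < ε → ∃ s, O.Near κ s e' δ ε) := by
  have hn : 0 < ‖κ‖ := norm_pos_iff.2 hκ
  set k : E := ‖κ‖⁻¹ • κ with hk
  have hk1 : ‖k‖ = 1 := by rw [hk, norm_smul, norm_inv, norm_norm, inv_mul_cancel₀ hn.ne']
  have hk0 : k ≠ 0 := by
    intro h; rw [h, norm_zero] at hk1; exact zero_ne_one hk1
  have hκk : ‖κ‖ • k = κ := by rw [hk, smul_smul, mul_inv_cancel₀ hn.ne', one_smul]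
  obtain ⟨x₁, x₂, hx⟩ := O.exists_lt k hk0
  obtain ⟨a, ha1, ha2⟩ := exists_between hx
  obtain ⟨b, hb1, hb2⟩ := exists_between ha2
  have key : ∀ e, ⟪k, O.g x₁⟫ < e → e < ⟪k, O.g x₂⟫ → ∀ δ ε, 0 < δ → 0 < ε →
      ∃ s, O.Near κ s (‖κ‖ * e) δ ε := by
    intro e h1 h2 δ ε hδ hε
    obtain ⟨s, hs⟩ := O.exists_near_unit hk1 h1 h2 (δ := δ / ‖κ‖) (by positivity) hε
    have := hs.scale hk0 hn.ne'
    rw [hκk, abs_of_pos hn, mul_div_cancel₀ _ hn.ne'] at this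
    exact ⟨_, this⟩
  refine ⟨‖κ‖ * a, ‖κ‖ * b, ?_, key a ha1 ha2, key b (ha1.trans hb1) hb2⟩
  intro h
  have := mul_left_cancel₀ hn.ne' h
  linarith

/-- the dimension condition -/
def Dim2 (E : Type*) [NormedAddCommGroup E] [InnerProductSpace ℝ E] : Prop :=
  ∀ κ : E, κ ≠ 0 → ∃ κ' : E, gram κ κ' ≠ 0

lemma exists_exact (hE : Dim2 E) {κ : E} (hκ : κ ≠ 0) (s : ℝ) : ∃ e, O.Exact κ s e := by
  obtain ⟨κ₁, h1⟩ := hE κ hκ
  have hD : gram κ₁ κ ≠ 0 := by rw [gram_comm]; exact h1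
  obtain ⟨e, e', hee, he, he'⟩ := O.exists_near_dir (gram_ne_left hD)
  obtain ⟨f, -, -, hf, -⟩ := O.exists_near_dir hκ
  exact O.exists_exact_aux hD hee he he' hf s

open Classical in
/-- the position of the Dirac mass -/
noncomputable def Ev (κ : E) (s : ℝ) : ℝ :=
  if h : ∃ e, O.Exact κ s e then h.choose else 0

lemma ev_spec (hE : Dim2 E) {κ : E} (hκ : κ ≠ 0) (s : ℝ) : O.Exact κ s (O.Ev κ s) := by
  have h := O.exists_exact hE hκ s
  unfold Ev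
  rw [dif_pos h]
  exact h.choose_spec

lemma ev_add (hE : Dim2 E) {κ₁ κ₂ : E} (hD : gram κ₁ κ₂ ≠ 0) (s t : ℝ) :
    O.Ev (κ₁ + κ₂) (s + t) = O.Ev κ₁ s + O.Ev κ₂ t := by
  have h1 := O.ev_spec hE (gram_ne_left hD) s
  have h2 := O.ev_spec hE (gram_ne_right hD) t
  have h3 := O.ev_spec hE (gram_ne_add hD) (s + t)
  exact h3.uniq (gram_ne_add hD) (h1.add hD h2)

lemma ev_smul (hE : Dim2 E) {κ : E} (hκ : κ ≠ 0) {l : ℝ} (hl : l ≠ 0) (s : ℝ) :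
    O.Ev (l • κ) (l * s) = l * O.Ev κ s := by
  have h1 := O.ev_spec hE hκ s
  have h2 := O.ev_spec hE (smul_ne_zero hl hκ) (l * s)
  exact h2.uniq (smul_ne_zero hl hκ) (h1.scale hκ hl)

lemma ev_rel (hE : Dim2 E) {κ₁ κ₂ : E} (hD : gram κ₁ κ₂ ≠ 0) (s t : ℝ) :
    O.Ev κ₁ (s + t) - O.Ev κ₁ s = O.Ev κ₂ t - O.Ev κ₂ 0 := by
  have h1 := O.ev_add hE hD s t
  have h2 := O.ev_add hE hD (s + t) 0
  rw [add_zero] at h2
  linarith

/-- increments do not depend on the direction -/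
lemma ev_incr (hE : Dim2 E) {κ₁ κ₂ : E} (h₁ : κ₁ ≠ 0) (h₂ : κ₂ ≠ 0) (t : ℝ) :
    O.Ev κ₁ t - O.Ev κ₁ 0 = O.Ev κ₂ t - O.Ev κ₂ 0 := by
  have key : ∀ κ₁ κ₂ : E, gram κ₁ κ₂ ≠ 0 → O.Ev κ₁ t - O.Ev κ₁ 0 = O.Ev κ₂ t - O.Ev κ₂ 0 := by
    intro κ₁ κ₂ hD
    have := O.ev_rel hE hD 0 t
    rwa [zero_add] at this
  by_cases hD : gram κ₁ κ₂ = 0
  · obtain ⟨μ, hμ⟩ := gram_eq_zero h₁ hD
    obtain ⟨κ₃, h₃⟩ := hE κ₁ h₁
    have hμ0 : μ ≠ 0 := by
      rintro rfl; rw [zero_smul] at hμ; exact h₂ hμ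
    have h₄ : gram κ₂ κ₃ ≠ 0 := by
      rw [hμ, gram_smul_left]; positivity
    rw [key κ₁ κ₃ h₃, key κ₂ κ₃ h₄]
  · exact key κ₁ κ₂ hD

lemma ev_affine (hE : Dim2 E) {κ₀ : E} (h₀ : κ₀ ≠ 0) {κ : E} (hκ : κ ≠ 0) (s : ℝ) :
    O.Ev κ s = (O.Ev κ₀ 1 - O.Ev κ₀ 0) * s + O.Ev κ 0 := by
  rcases eq_or_ne s 0 with rfl | hs
  · ring
  · have h1 := O.ev_smul hE hκ hs 1
    have h2 := O.ev_smul hE hκ hs 0
    rw [mul_one] at h1
    rw [mul_zero] at h2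
    have h3 := O.ev_incr hE (smul_ne_zero hs hκ) hκ s
    have h4 := O.ev_incr hE hκ h₀ 1
    rw [← h4]
    have : O.Ev κ s - O.Ev κ 0 = s * (O.Ev κ 1 - O.Ev κ 0) := by
      rw [← h3, h1, h2]; ring
    linarith

open Classical in
/-- the linear functional `κ ↦ Ev κ 0` -/
noncomputable def P (hE : Dim2 E) : E →ₗ[ℝ] ℝ :=
  have hsm : ∀ (l : ℝ) (κ : E), (if l • κ = 0 then 0 else O.Ev (l • κ) 0) =
      l * (if κ = 0 then 0 else O.Ev κ 0) := by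
    intro l κ
    by_cases hl : l = 0
    · subst hl; simp
    · by_cases hκ : κ = 0
      · subst hκ; simp
      · rw [if_neg (smul_ne_zero hl hκ), if_neg hκ]
        have := O.ev_smul hE hκ hl 0
        rwa [mul_zero] at this
  { toFun := fun κ => if κ = 0 then 0 else O.Ev κ 0
    map_smul' := fun l κ => hsm l κ
    map_add' := by
      intro κ₁ κ₂
      by_cases h₁ : κ₁ = 0
      · subst h₁; simp
      · by_cases h₂ : κ₂ = 0
        · subst h₂; simp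
        · by_cases hD : gram κ₁ κ₂ = 0
          · obtain ⟨μ, rfl⟩ := gram_eq_zero h₁ hD
            have e1 : κ₁ + μ • κ₁ = (1 + μ) • κ₁ := by rw [add_smul, one_smul]
            rw [e1, hsm, hsm]; ring
          · rw [if_neg h₁, if_neg h₂, if_neg (gram_ne_add hD)]
            have := O.ev_add hE hD 0 0
            rwa [add_zero] at this }

open Classical in
lemma P_apply (hE : Dim2 E) {κ : E} (hκ : κ ≠ 0) : O.P hE κ = O.Ev κ 0 := by
  show (if κ = 0 then 0 else O.Ev κ 0) = _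
  rw [if_neg hκ]

/-- The affine law. -/
theorem affine_law [FiniteDimensional ℝ E] [Nontrivial E] (hE : Dim2 E) :
    ∃ (a : ℝ) (p : E), a ≠ 0 ∧ ∀ κ : E, κ ≠ 0 → ∀ s, O.Exact κ s (a * s + ⟪κ, p⟫) := by
  obtain ⟨κ₀, h₀⟩ := exists_ne (0 : E)
  have : CompleteSpace E := FiniteDimensional.complete ℝ E
  set a := O.Ev κ₀ 1 - O.Ev κ₀ 0 with ha
  set p : E := (InnerProductSpace.toDual ℝ E).symm (LinearMap.toContinuousLinearMap (O.P hE))
    with hp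
  have hpP : ∀ κ : E, ⟪κ, p⟫ = O.P hE κ := by
    intro κ
    rw [real_inner_comm, hp, InnerProductSpace.toDual_symm_apply]
    rfl
  have hex : ∀ κ : E, κ ≠ 0 → ∀ s, O.Exact κ s (a * s + ⟪κ, p⟫) := by
    intro κ hκ s
    rw [hpP, O.P_apply hE hκ, ← O.ev_affine hE h₀ hκ s]
    exact O.ev_spec hE hκ s
  refine ⟨a, p, ?_, hex⟩
  intro ha0
  obtain ⟨e, e', hee, he, he'⟩ := O.exists_near_dir h₀
  have hDpos : 0 < |e - e'| := abs_pos.2 (sub_ne_zero.2 hee)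
  obtain ⟨s, hs⟩ := he (|e - e'| / 8) (1 / 4) (by positivity) (by norm_num)
  obtain ⟨s', hs'⟩ := he' (|e - e'| / 8) (1 / 4) (by positivity) (by norm_num)
  have h1 := hs.uniq h₀ (hex κ₀ h₀ s (|e - e'| / 8) (1 / 4) (by positivity) (by norm_num))
    (by norm_num)
  have h2 := hs'.uniq h₀ (hex κ₀ h₀ s' (|e - e'| / 8) (1 / 4) (by positivity) (by norm_num))
    (by norm_num)
  rw [ha0, zero_mul, zero_add] at h1 h2
  have h3 : |e - e'| ≤ |e - ⟪κ₀, p⟫| + |e' - ⟪κ₀, p⟫| := by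
    have : e - e' = (e - ⟪κ₀, p⟫) - (e' - ⟪κ₀, p⟫) := by ring
    rw [this]
    exact abs_sub _ _
  linarith

end CoreOp

end Pool.Agent.MPcf641d
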