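import Mathlib
import Pool.Agent.MPcf641d.Defs

/-!
Functionals on the Lipschitz-free space, for `MP_cf641d_an`.
-/

set_option linter.unusedSectionVars false

namespace Pool.Agent.MPcf641d

open Filter Topology

variable {M : Type*} [MetricSpace M]

/-- `f` is `K`-Lipschitz with a real constant -/
def LipM (K : ℝ) (f : M → ℝ) : Prop := ∀ x y, f x - f y ≤ K * dist x y

lemma LipM.abs {K : ℝ} {f : M → ℝ} (h : LipM K f) (x y : M) : |f x - f y| ≤ K * dist x y := by
  rw [abs_le]
  constructor
  · have := h y x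
    rw [dist_comm] at this
    linarith
  · exact h x y

lemma LipM.lipschitzWith {f : M → ℝ} (h : LipM 1 f) : LipschitzWith 1 f := by
  refine LipschitzWith.of_dist_le_mul fun x y => ?_
  rw [Real.dist_eq, NNReal.coe_one]
  exact h.abs x y

lemma lipM_of_lipschitzWith {f : M → ℝ} (h : LipschitzWith 1 f) : LipM 1 f := by
  intro x y
  have := h.dist_le_mul x y
  rw [Real.dist_eq, NNReal.coe_one] at this
  exact (le_abs_self _).trans this

lemma LipM.mono {K L : ℝ} {f : M → ℝ} (h : LipM K f) (hKL : K ≤ L) : LipM L f := fun x y =>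
  (h x y).trans (mul_le_mul_of_nonneg_right hKL dist_nonneg)

lemma LipM.add {K L : ℝ} {f h : M → ℝ} (hf : LipM K f) (hh : LipM L h) :
    LipM (K + L) (fun x => f x + h x) := fun x y => by
  have h1 := hf x y
  have h2 := hh x y
  simp only
  nlinarith

lemma LipM.smul {K : ℝ} {f : M → ℝ} (hf : LipM K f) (c : ℝ) :
    LipM (|c| * K) (fun x => c * f x) := fun x y => by
  have h1 := hf.abs x y
  have h2 : c * f x - c * f y ≤ |c| * |f x - f y| := by
    rw [← abs_mul, ← mul_sub]; exact le_abs_self _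
  have h3 := mul_le_mul_of_nonneg_left h1 (abs_nonneg c)
  simp only
  linarith

/-- pairing with `f` as a linear map on `F₀ M` -/
noncomputable def pairL (f : M → ℝ) : F₀ M →ₗ[ℝ] ℝ where
  toFun x := pair x.val f
  map_add' _ _ := pair_add _ _ _
  map_smul' _ _ := pair_smul _ _ _

lemma pairL_apply (f : M → ℝ) (x : F₀ M) : pairL f x = pair x.val f := rfl

/-- the inclusion into the completion -/
noncomputable def incl : F₀ M →ₗ[ℝ] FreeSpace M :=
  (UniformSpace.Completion.toComplₗᵢ (𝕜 := ℝ) (E := F₀ M)).toLinearMap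

lemma incl_apply (x : F₀ M) : incl x = (x : FreeSpace M) := rfl

lemma incl_dense : DenseRange (incl : F₀ M → FreeSpace M) :=
  UniformSpace.Completion.denseRange_coe

lemma norm_incl (x : F₀ M) : ‖incl x‖ = ‖x‖ := UniformSpace.Completion.norm_coe x

lemma pairL_bound {K : ℝ} (hK : 0 ≤ K) {f : M → ℝ} (hf : LipM K f) (x : F₀ M) :
    ‖pairL f x‖ ≤ K * ‖incl x‖ := by
  rw [norm_incl, pairL_apply, Real.norm_eq_abs]
  rcases hK.eq_or_lt with rfl | hK
  · rcases isEmpty_or_nonempty M with hM | ⟨⟨m₀⟩⟩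
    · have : x.val = 0 := Subsingleton.elim _ _
      simp [this, pair_zero]
    · have hc : f = fun _ => f m₀ := by
        funext m
        have h1 := hf m m₀
        have h2 := hf m₀ m
        rw [zero_mul] at h1 h2
        linarith
      rw [hc, x.pair_one]; simp
  · have h1 : LipM 1 (fun m => K⁻¹ * f m) := by
      have := hf.smul K⁻¹
      rwa [abs_of_pos (inv_pos.2 hK), inv_mul_cancel₀ hK.ne'] at this
    have h2 := pair_le_norm x h1.lipschitzWith
    rw [pair_fun_smul, abs_mul, abs_of_pos (inv_pos.2 hK), inv_mul_le_iff₀ hK] at h2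
    exact h2

/-- evaluation of elements of the free space at a Lipschitz function -/
noncomputable def ev (f : M → ℝ) : FreeSpace M →L[ℝ] ℝ := (pairL f).extendOfNorm incl

lemma ev_incl {K : ℝ} (hK : 0 ≤ K) {f : M → ℝ} (hf : LipM K f) (x : F₀ M) :
    ev f (incl x) = pair x.val f :=
  LinearMap.extendOfNorm_eq incl_dense ⟨K, pairL_bound hK hf⟩ x

lemma ev_bound {K : ℝ} (hK : 0 ≤ K) {f : M → ℝ} (hf : LipM K f) (v : FreeSpace M) :
    |ev f v| ≤ K * ‖v‖ :=
  LinearMap.norm_extendOfNorm_apply_le incl_dense K (pairL_bound hK hf) v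

lemma ev_mol {K : ℝ} (hK : 0 ≤ K) {f : M → ℝ} (hf : LipM K f) (p q : M) :
    ev f (incl (mol p q)) = f p - f q := by
  rw [ev_incl hK hf, pair_mol]

/-- elements of `F₀ M` are combinations of `mol m m₀` -/
lemma eq_sum_mol (x : F₀ M) (m₀ : M) :
    x = ∑ m ∈ x.val.support, x.val m • mol m m₀ := by
  apply F₀.ext
  have hval : ∀ s : Finset M, (∑ m ∈ s, x.val m • mol m m₀ : F₀ M).val =
      ∑ m ∈ s, x.val m • (Finsupp.single m 1 - Finsupp.single m₀ 1) := by
    classical
    intro s
    induction s using Finset.induction_on with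
    | empty => simp
    | insert a s ha ih =>
      rw [Finset.sum_insert ha, Finset.sum_insert ha, F₀.val_add, ih, F₀.val_smul, mol_val]
  rw [hval]
  simp only [smul_sub, Finset.sum_sub_distrib, Finsupp.smul_single, smul_eq_mul, mul_one]
  have h1 : ∑ m ∈ x.val.support, Finsupp.single m (x.val m) = x.val :=
    Finsupp.sum_single x.val
  have h2 : ∑ m ∈ x.val.support, Finsupp.single m₀ (x.val m) = 0 := by
    rw [← Finsupp.single_finsetSum]
    have := x.sum_eq
    unfold Finsupp.sum at this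
    rw [this, Finsupp.single_zero]
  rw [h1, h2, sub_zero]

/-- continuous linear maps on the free space are determined by their values on `mol p q` -/
lemma clm_ext {G : Type*} [NormedAddCommGroup G] [NormedSpace ℝ G] {A B : FreeSpace M →L[ℝ] G}
    (h : ∀ p q : M, A (incl (mol p q)) = B (incl (mol p q))) : A = B := by
  have h1 : ∀ x : F₀ M, A (incl x) = B (incl x) := by
    intro x
    rcases isEmpty_or_nonempty M with hM | ⟨⟨m₀⟩⟩
    · have : x = 0 := F₀.ext (Subsingleton.elim _ _)
      rw [this]; simp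
    · rw [eq_sum_mol x m₀]
      simp only [map_sum, map_smul, h]
  apply ContinuousLinearMap.coeFn_injective
  exact incl_dense.equalizer A.continuous B.continuous (funext h1)

lemma ev_add {K L : ℝ} (hK : 0 ≤ K) (hL : 0 ≤ L) {f h : M → ℝ} (hf : LipM K f) (hh : LipM L h) :
    ev (fun x => f x + h x) = ev f + ev h := by
  apply clm_ext
  intro p q
  rw [_root_.add_apply, ev_mol hK hf, ev_mol hL hh,
    ev_mol (add_nonneg hK hL) (hf.add hh)]
  ring

lemma ev_smul {K : ℝ} (hK : 0 ≤ K) {f : M → ℝ} (hf : LipM K f) (c : ℝ) :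
    ev (fun x => c * f x) = c • ev f := by
  apply clm_ext
  intro p q
  rw [_root_.smul_apply, ev_mol hK hf,
    ev_mol (mul_nonneg (abs_nonneg c) hK) (hf.smul c), smul_eq_mul]
  ring

lemma ev_sub_const {K : ℝ} (hK : 0 ≤ K) {f : M → ℝ} (hf : LipM K f) (c : ℝ) :
    ev (fun x => f x - c) = ev f := by
  apply clm_ext
  intro p q
  have h : LipM K (fun x => f x - c) := fun x y => by
    have := hf x y
    simp only
    linarith
  rw [ev_mol hK hf, ev_mol hK h]
  ring

/-- the norm on the free space is computed by `1`-Lipschitz functions -/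
lemma norm_le_of_ev {v : FreeSpace M} {C : ℝ} (h : ∀ f : M → ℝ, LipM 1 f → |ev f v| ≤ C) :
    ‖v‖ ≤ C := by
  apply le_of_forall_pos_le_add
  intro ε hε
  obtain ⟨x, hx⟩ := incl_dense.exists_dist_lt v (ε := ε / 2) (by positivity)
  rw [dist_eq_norm] at hx
  have h1 : ‖x‖ ≤ C + ε / 2 := by
    apply norm_le
    intro f hf
    have hf' := lipM_of_lipschitzWith hf
    rw [← ev_incl zero_le_one hf']
    have h2 := h f hf'
    have h3 := ev_bound zero_le_one hf' (v - incl x)
    rw [one_mul, map_sub] at h3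
    have h4 : ev f (incl x) = ev f v - (ev f v - ev f (incl x)) := by ring
    rw [h4]
    have := abs_sub (ev f v) (ev f v - ev f (incl x))
    linarith
  have h2 : ‖v‖ ≤ ‖v - incl x‖ + ‖incl x‖ := by
    have := norm_add_le (v - incl x) (incl x)
    rwa [sub_add_cancel] at this
  rw [norm_incl] at h2
  linarith

lemma eq_of_ev {v w : FreeSpace M} (h : ∀ f : M → ℝ, LipM 1 f → ev f v = ev f w) : v = w := by
  rw [← sub_eq_zero, ← norm_le_zero_iff]
  apply norm_le_of_ev
  intro f hf
  rw [map_sub, h f hf]; simp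

lemma lipM_dist (q : M) : LipM 1 (fun x => dist x q) := fun x y => by
  have := dist_triangle x y q
  simp only
  linarith

lemma norm_mol (p q : M) : ‖incl (mol p q)‖ = dist p q := by
  apply le_antisymm
  · apply norm_le_of_ev
    intro f hf
    rw [ev_mol zero_le_one hf]
    have := hf.abs p q
    rwa [one_mul] at this
  · have h1 := ev_bound zero_le_one (lipM_dist q) (incl (mol p q))
    rw [ev_mol zero_le_one (lipM_dist q), dist_self, sub_zero, one_mul,
      abs_of_nonneg dist_nonneg] at h1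
    exact h1

lemma mol_self (p : M) : mol p p = 0 := F₀.ext (by rw [mol_val]; simp)

lemma mol_sub (p q r : M) : mol p r - mol q r = mol p q :=
  F₀.ext (by rw [F₀.val_sub, mol_val, mol_val, mol_val]; abel)

/-- weak-star continuity -/
lemma ev_tendsto {K : ℝ} (hK : 0 ≤ K) {f : ℕ → M → ℝ} {f₀ : M → ℝ} (hf : ∀ n, LipM K (f n))
    (hf₀ : LipM K f₀) (hlim : ∀ x, Tendsto (fun n => f n x) atTop (𝓝 (f₀ x)))
    (v : FreeSpace M) : Tendsto (fun n => ev (f n) v) atTop (𝓝 (ev f₀ v)) := by
  rw [Metric.tendsto_nhds]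
  intro ε hε
  obtain ⟨x, hx⟩ := incl_dense.exists_dist_lt v (ε := ε / (4 * (K + 1))) (by positivity)
  rw [dist_eq_norm] at hx
  have h1 : Tendsto (fun n => ev (f n) (incl x)) atTop (𝓝 (ev f₀ (incl x))) := by
    simp only [ev_incl hK (hf _), ev_incl hK hf₀]
    unfold pair Finsupp.sum
    exact tendsto_finsetSum _ fun m _ => (hlim m).const_mul _
  rw [Metric.tendsto_nhds] at h1
  filter_upwards [h1 (ε / 2) (by positivity)] with n hn
  rw [Real.dist_eq] at hn ⊢
  have h2 := ev_bound hK (hf n) (v - incl x)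
  have h3 := ev_bound hK hf₀ (v - incl x)
  rw [map_sub] at h2 h3
  have h4 : K * ‖v - incl x‖ ≤ ε / 4 := by
    calc K * ‖v - incl x‖ ≤ (K + 1) * (ε / (4 * (K + 1))) := by
          apply mul_le_mul (by linarith) hx.le (norm_nonneg _) (by positivity)
      _ = ε / 4 := by field_simp
  have h5 : ev (f n) v - ev f₀ v = (ev (f n) v - ev (f n) (incl x)) +
      (ev (f n) (incl x) - ev f₀ (incl x)) - (ev f₀ v - ev f₀ (incl x)) := by ring
  rw [h5]
  have h6 := abs_sub ((ev (f n) v - ev (f n) (incl x)) +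
      (ev (f n) (incl x) - ev f₀ (incl x))) (ev f₀ v - ev f₀ (incl x))
  have h7 := abs_add_le (ev (f n) v - ev (f n) (incl x))
      (ev (f n) (incl x) - ev f₀ (incl x))
  linarith

section Ts

variable (T : FreeSpace M ≃ₗᵢ[ℝ] FreeSpace M) (o : M)

/-- the adjoint of `T` on Lipschitz functions -/
noncomputable def Ts (f : M → ℝ) (x : M) : ℝ := ev f (T (incl (mol x o)))

lemma Ts_lip {K : ℝ} (hK : 0 ≤ K) {f : M → ℝ} (hf : LipM K f) : LipM K (Ts T o f) := by
  intro x y
  unfold Ts
  rw [← map_sub, ← map_sub, ← map_sub, mol_sub]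
  have := ev_bound hK hf (T (incl (mol x y)))
  rw [T.norm_map, norm_mol] at this
  exact (le_abs_self _).trans this

lemma ev_Ts {K : ℝ} (hK : 0 ≤ K) {f : M → ℝ} (hf : LipM K f) (v : FreeSpace M) :
    ev (Ts T o f) v = ev f (T v) := by
  have h : ev (Ts T o f) = (ev f).comp (T : FreeSpace M →L[ℝ] FreeSpace M) := by
    apply clm_ext
    intro p q
    rw [ev_mol hK (Ts_lip T o hK hf)]
    unfold Ts
    rw [← map_sub, ← map_sub, ← map_sub, mol_sub]
    rfl
  rw [h]; rfl

lemma Ts_symm {K : ℝ} (hK : 0 ≤ K) {f : M → ℝ} (hf : LipM K f) (x : M) :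
    Ts T o (Ts T.symm o f) x = f x - f o := by
  unfold Ts
  rw [show (fun x => ev f (T.symm (incl (mol x o)))) = Ts T.symm o f from rfl,
    ev_Ts T.symm o hK hf, T.symm_apply_apply, ev_mol hK hf]

end Ts

end Pool.Agent.MPcf641d
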