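import Mathlib
import Pool.Agent.MPcf641d.Core

/-!
Smooth approximation of Lipschitz functions, for `MP_cf641d_an`.
-/

namespace Pool.Agent.MPcf641d

open MeasureTheory Filter Topology Metric ContinuousLinearMap
open scoped RealInnerProductSpace Convolution

variable {E : Type*} [NormedAddCommGroup E] [InnerProductSpace ℝ E]

/-- Every `L`-Lipschitz function on a finite-dimensional space is uniformly close to a `C¹`
`L`-Lipschitz function. -/
lemma exists_smooth_approx [FiniteDimensional ℝ E] {h : E → ℝ} {L : ℝ} (hL0 : 0 ≤ L)
    (hh : LipB L h) {ε : ℝ} (hε : 0 < ε) :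
    ∃ h' : E → ℝ, LipB L h' ∧ ContDiff ℝ 1 h' ∧ ∀ x, |h' x - h x| ≤ ε := by
  letI : MeasurableSpace E := borel E
  haveI : BorelSpace E := ⟨rfl⟩
  set μ : Measure E := Measure.addHaar with hμ
  have hcont : Continuous h := IsLip.continuous ⟨L, hh⟩
  set r : ℝ := ε / (L + 1) with hr
  have hr0 : 0 < r := by positivity
  let φ : ContDiffBump (0 : E) := ⟨r / 2, r, by positivity, by linarith⟩
  have hφr : φ.rOut = r := rfl
  have hint : ∀ x, Integrable (fun t => φ.normed μ t * h (x - t)) μ := by
    intro x
    apply Continuous.integrable_of_hasCompactSupport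
    · exact φ.continuous_normed.mul (hcont.comp (by fun_prop))
    · exact φ.hasCompactSupport_normed.mul_right
  refine ⟨φ.normed μ ⋆[lsmul ℝ ℝ, μ] h, ?_, ?_, ?_⟩
  · intro x y
    simp only [convolution_def, lsmul_apply, smul_eq_mul]
    rw [← integral_sub (hint x) (hint y)]
    have h1 : ∀ t, φ.normed μ t * h (x - t) - φ.normed μ t * h (y - t) ≤
        φ.normed μ t * (L * ‖x - y‖) := by
      intro t
      rw [← mul_sub]
      apply mul_le_mul_of_nonneg_left _ (φ.nonneg_normed t)
      have := hh (x - t) (y - t)
      rwa [sub_sub_sub_cancel_right] at this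
    calc _ ≤ ∫ t, φ.normed μ t * (L * ‖x - y‖) ∂μ := by
          apply integral_mono ((hint x).sub (hint y)) _ h1
          exact φ.integrable_normed.mul_const _
      _ = L * ‖x - y‖ := by
          rw [integral_mul_const, φ.integral_normed, one_mul]
  · exact φ.hasCompactSupport_normed.contDiff_convolution_left _ φ.contDiff_normed
      hcont.locallyIntegrable
  · intro x
    rw [← Real.dist_eq]
    apply ContDiffBump.dist_normed_convolution_le hcont.aestronglyMeasurable
    intro z hz
    rw [Real.dist_eq]
    refine (hh.abs z x).trans ?_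
    rw [mem_ball, dist_eq_norm, hφr] at hz
    calc L * ‖z - x‖ ≤ (L + 1) * r := by
          apply mul_le_mul (by linarith) hz.le (norm_nonneg _) (by positivity)
      _ = ε := by rw [hr]; field_simp

end Pool.Agent.MPcf641d
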