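import Mathlib
import Pool.Agent.MPcf641d.Exact

/-!
The operator `U` on `C¹` Lipschitz functions, for `MP_cf641d_an`.
-/

set_option linter.unusedSectionVars false

namespace Pool.Agent.MPcf641d

open Set Filter Topology
open scoped RealInnerProductSpace

variable {E : Type*} [NormedAddCommGroup E] [InnerProductSpace ℝ E]

/-- the one-variable function with slope `0` on `[p, q]` and `1` elsewhere -/
noncomputable def psiR (p q s : ℝ) : ℝ := 2 * s - max s p + max (-s) (-q)

lemma psiR_mono (p q : ℝ) {s t : ℝ} (ht : 0 ≤ t) : 0 ≤ psiR p q (s + t) - psiR p q s := by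
  unfold psiR
  rcases max_cases (s + t) p with ⟨h1, h2⟩ | ⟨h1, h2⟩ <;>
  rcases max_cases s p with ⟨h3, h4⟩ | ⟨h3, h4⟩ <;>
  rcases max_cases (-(s + t)) (-q) with ⟨h5, h6⟩ | ⟨h5, h6⟩ <;>
  rcases max_cases (-s) (-q) with ⟨h7, h8⟩ | ⟨h7, h8⟩ <;> linarith

lemma psiR_right {p q : ℝ} (hpq : p ≤ q) {s t : ℝ} (ht : 0 ≤ t) (hs : q < s) :
    psiR p q (s + t) - psiR p q s = t := by
  unfold psiR
  rw [max_eq_left (by linarith : p ≤ s + t), max_eq_left (by linarith : p ≤ s),
    max_eq_right (by linarith : -(s + t) ≤ -q), max_eq_right (by linarith : -s ≤ -q)]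
  ring

lemma psiR_left {p q : ℝ} (hpq : p ≤ q) {s t : ℝ} (ht : 0 ≤ t) (hs : s + t < p) :
    psiR p q (s + t) - psiR p q s = t := by
  unfold psiR
  rw [max_eq_right (by linarith : s + t ≤ p), max_eq_right (by linarith : s ≤ p),
    max_eq_left (by linarith : -q ≤ -(s + t)), max_eq_left (by linarith : -q ≤ -s)]
  ring

namespace CoreOp

variable (O : CoreOp E)

lemma U_zero (x : E) : O.U (fun _ => 0) x = 0 := by
  have h := O.smul 0 (fun _ => 0) (isLip_const 0) x
  simpa using h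

lemma isLip_sum {J : Type*} (s : Finset J) {F : J → E → ℝ} (hF : ∀ j, IsLip (F j)) :
    IsLip (fun x => ∑ j ∈ s, F j x) := by
  classical
  induction s using Finset.induction_on with
  | empty => simpa using isLip_const (E := E) 0
  | insert a s ha ih =>
    simp only [Finset.sum_insert ha]
    exact (hF a).add ih

lemma U_sum {J : Type*} (s : Finset J) {F : J → E → ℝ} (hF : ∀ j, IsLip (F j)) (x : E) :
    O.U (fun x => ∑ j ∈ s, F j x) x = ∑ j ∈ s, O.U (F j) x := by
  classical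
  induction s using Finset.induction_on with
  | empty => simpa using O.U_zero x
  | insert a s ha ih =>
    simp only [Finset.sum_insert ha]
    rw [O.add _ _ (hF a) (isLip_sum s hF), ih]

lemma isLip_psi (κ : E) (p q : ℝ) : IsLip (fun x => psiR p q ⟪κ, x⟫) := by
  have h := (((isLip_inner κ).smul 2).sub (isLip_max κ p)).add (isLip_max (-κ) (-q))
  unfold psiR
  simpa only [inner_neg_left] using h

/-- The function `U ψ` is flat at exact points. -/
lemma psi_flat {κ k : E} (hκk : ⟪κ, k⟫ = 1) {y : E} {e δ ε : ℝ} (hδ : 0 < δ) (hε : 0 < ε)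
    (hex : O.Exact κ ⟪κ, y⟫ e) :
    ∀ᶠ t in 𝓝[>] (0 : ℝ), O.U (fun x => psiR (e - δ) (e + δ) ⟪κ, x⟫) (y + t • k) -
      O.U (fun x => psiR (e - δ) (e + δ) ⟪κ, x⟫) y ≤ 2 * ε * t := by
  have hκ : κ ≠ 0 := by rintro rfl; simp at hκk
  have hκ' : -κ ≠ 0 := neg_ne_zero.2 hκ
  obtain ⟨⟨r₁, hr₁, h₁⟩, ⟨r₂, hr₂, h₂⟩⟩ := hex δ ε hδ hε
  have hr : 0 < min r₁ r₂ := lt_min hr₁ hr₂
  filter_upwards [Ioo_mem_nhdsGT hr] with t ht
  obtain ⟨ht0, htr⟩ := ht
  obtain ⟨a1, -⟩ := h₁ t ht0 (lt_min_iff.1 htr).1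
  obtain ⟨-, a2⟩ := h₂ t ht0 (lt_min_iff.1 htr).2
  have hfun : (fun x : E => psiR (e - δ) (e + δ) ⟪κ, x⟫) =
      (fun x => (2 * ⟪κ, x⟫ - max ⟪κ, x⟫ (e - δ)) + max ⟪-κ, x⟫ (-e - δ)) := by
    funext x
    unfold psiR
    rw [inner_neg_left, show -(e + δ) = -e - δ by ring]
  have l1 : IsLip (fun x : E => 2 * ⟪κ, x⟫) := (isLip_inner κ).smul 2
  have l2 : IsLip (fun x : E => 2 * ⟪κ, x⟫ - max ⟪κ, x⟫ (e - δ)) := l1.sub (isLip_max κ _)
  have hval : ∀ z, O.U (fun x : E => psiR (e - δ) (e + δ) ⟪κ, x⟫) z =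
      2 * ⟪κ, z⟫ - O.A κ (e - δ) ⟪κ, z⟫ + O.A (-κ) (-e - δ) ⟪-κ, z⟫ := by
    intro z
    rw [hfun, O.add _ _ l2 (isLip_max (-κ) _), O.sub l1 (isLip_max κ _),
      O.smul _ _ (isLip_inner κ), O.lin, O.A_inner hκ, O.A_inner hκ']
  rw [hval, hval]
  have e1 : ⟪κ, y + t • k⟫ = ⟪κ, y⟫ + t := by
    rw [inner_add_right, inner_smul_right, hκk, mul_one]
  have e2 : ⟪-κ, y + t • k⟫ = -⟪κ, y⟫ - t := by
    rw [inner_neg_left, e1]; ring
  have e3 : ⟪-κ, y⟫ = -⟪κ, y⟫ := by rw [inner_neg_left]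
  rw [e1, e2, e3]
  nlinarith

/-- local upper bound for the slopes of `U h` -/
lemma upper_local {J : Type*} [Fintype J] {κ : J → E} {k : E} (hk : ‖k‖ = 1)
    (hκk : ∀ j, ⟪κ j, k⟫ = 1)
    (hcov : ∀ r > 0, ∃ δ > 0, ∀ z : E, (∀ j, |⟪κ j, z⟫| ≤ δ) → ‖z‖ < r)
    {h : E → ℝ} (hh : IsLip h) {y w : E} (hex : ∀ j, O.Exact (κ j) ⟪κ j, y⟫ ⟪κ j, w⟫) {c : ℝ}
    (hloc : ∃ r > 0, ∀ x, ‖x - w‖ < r → ∀ᶠ t in 𝓝[>] (0 : ℝ), h (x + t • k) - h x ≤ c * t)
    {η : ℝ} (hη : 0 < η) :
    ∀ᶠ t in 𝓝[>] (0 : ℝ), O.U h (y + t • k) - O.U h y ≤ (c + η) * t := by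
  obtain ⟨r, hr, hloc⟩ := hloc
  obtain ⟨δ, hδ, hcov⟩ := hcov r hr
  obtain ⟨L₀, hL₀0, hL₀⟩ := hh.exists_nonneg
  set L := max L₀ c with hL
  have hLip : LipB L h := hL₀.mono (le_max_left _ _)
  have hLc : 0 ≤ L - c := sub_nonneg.2 (le_max_right _ _)
  set ψ : J → E → ℝ := fun j x => psiR (⟪κ j, w⟫ - δ) (⟪κ j, w⟫ + δ) ⟪κ j, x⟫ with hψ
  have hψL : ∀ j, IsLip (ψ j) := fun j => isLip_psi _ _ _
  set θ : E → ℝ := fun x => c * ⟪k, x⟫ + (L - c) * ∑ j, ψ j x with hθ
  have hsumL : IsLip (fun x => ∑ j, ψ j x) := isLip_sum Finset.univ hψL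
  have hθL : IsLip θ := ((isLip_inner k).smul c).add (hsumL.smul (L - c))
  have hψmono : ∀ j x, ∀ t : ℝ, 0 ≤ t → 0 ≤ ψ j (x + t • k) - ψ j x := by
    intro j x t ht
    have e1 : ⟪κ j, x + t • k⟫ = ⟪κ j, x⟫ + t := by
      rw [inner_add_right, inner_smul_right, hκk, mul_one]
    simp only [hψ, e1]
    exact psiR_mono _ _ ht
  have hkk : ∀ x t, ⟪k, x + t • k⟫ = ⟪k, x⟫ + t := fun x t => by
    rw [inner_add_right, inner_smul_right, real_inner_self_eq_norm_sq, hk]; ring
  -- domination of slopes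
  have hdom : ∀ x, ∀ᶠ t in 𝓝[>] (0 : ℝ), h (x + t • k) - h x ≤ θ (x + t • k) - θ x := by
    intro x
    have hsum0 : ∀ t : ℝ, 0 ≤ t → 0 ≤ ∑ j, ψ j (x + t • k) - ∑ j, ψ j x := by
      intro t ht
      rw [← Finset.sum_sub_distrib]
      exact Finset.sum_nonneg fun j _ => hψmono j x t ht
    by_cases hx : ‖x - w‖ < r
    · filter_upwards [hloc x hx, self_mem_nhdsWithin] with t ht ht0
      have h1 := mul_nonneg hLc (hsum0 t (le_of_lt ht0))
      simp only [hθ, hkk]
      linarith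
    · have hj : ∃ j, δ < |⟪κ j, x - w⟫| := by
        by_contra hcon
        push Not at hcon
        exact hx (hcov _ hcon)
      obtain ⟨j, hj⟩ := hj
      have hψj : ∀ᶠ t in 𝓝[>] (0 : ℝ), ψ j (x + t • k) - ψ j x = t := by
        have e1 : ∀ t : ℝ, ⟪κ j, x + t • k⟫ = ⟪κ j, x⟫ + t := fun t => by
          rw [inner_add_right, inner_smul_right, hκk, mul_one]
        rw [inner_sub_right] at hj
        rcases lt_abs.1 hj with hj | hj
        · filter_upwards [self_mem_nhdsWithin] with t ht0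
          simp only [hψ, e1]
          exact psiR_right (by linarith) (le_of_lt ht0) (by linarith)
        · have hpos : 0 < -(⟪κ j, x⟫ - ⟪κ j, w⟫) - δ := by linarith
          filter_upwards [Ioo_mem_nhdsGT hpos] with t ht
          simp only [hψ, e1]
          exact psiR_left (by linarith) ht.1.le (by linarith [ht.2])
      filter_upwards [hψj, self_mem_nhdsWithin] with t ht ht0
      have ht0' : (0 : ℝ) ≤ t := le_of_lt ht0
      have h1 : t ≤ ∑ j, ψ j (x + t • k) - ∑ j, ψ j x := by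
        rw [← Finset.sum_sub_distrib]
        calc t = ψ j (x + t • k) - ψ j x := ht.symm
          _ ≤ _ := Finset.single_le_sum (f := fun i => ψ i (x + t • k) - ψ i x)
            (fun i _ => hψmono i x t ht0') (Finset.mem_univ j)
      have h2 := mul_le_mul_of_nonneg_left h1 hLc
      have h3 := hLip (x + t • k) x
      rw [add_sub_cancel_left, norm_smul, hk, Real.norm_eq_abs, abs_of_nonneg ht0'] at h3
      simp only [hθ, hkk]
      linarith
  have hglob : ∀ x, ∀ t : ℝ, 0 ≤ t → h (x + t • k) - h x ≤ θ (x + t • k) - θ x := by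
    intro x t ht
    have hcont : Continuous (fun s : ℝ => θ (x + s • k) - h (x + s • k)) := by
      have h1 : Continuous (fun s : ℝ => x + s • k) := by fun_prop
      exact (hθL.continuous.comp h1).sub (hh.continuous.comp h1)
    have := le_of_right_local hcont (fun s₀ => ?_) ht
    · simp only [zero_smul, add_zero] at this
      linarith
    · have h1 := hdom (x + s₀ • k)
      have h2 : Tendsto (fun s : ℝ => s - s₀) (𝓝[>] s₀) (𝓝[>] 0) := by
        apply tendsto_nhdsWithin_of_tendsto_nhds_of_eventually_within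
        · have : Tendsto (fun s : ℝ => s - s₀) (𝓝 s₀) (𝓝 (s₀ - s₀)) := by
            apply Continuous.tendsto; fun_prop
          rw [sub_self] at this
          exact this.mono_left nhdsWithin_le_nhds
        · filter_upwards [self_mem_nhdsWithin] with s hs
          exact mem_Ioi.2 (sub_pos.2 (mem_Ioi.1 hs))
      filter_upwards [h2.eventually h1] with s hs
      have e : x + s₀ • k + (s - s₀) • k = x + s • k := by
        rw [sub_smul]; abel
      rw [e] at hs
      linarith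
  -- flatness
  set N : ℝ := (Fintype.card J : ℝ) with hN
  have hN0 : 0 ≤ N := Nat.cast_nonneg _
  set ε : ℝ := η / (2 * ((L - c) * N + 1)) with hε
  have hden : 0 < 2 * ((L - c) * N + 1) := by positivity
  have hεpos : 0 < ε := by positivity
  have hflat : ∀ᶠ t in 𝓝[>] (0 : ℝ), ∀ j, O.U (ψ j) (y + t • k) - O.U (ψ j) y ≤ 2 * ε * t := by
    rw [eventually_all]
    intro j
    exact O.psi_flat (hκk j) hδ hεpos (hex j)
  filter_upwards [hflat, self_mem_nhdsWithin] with t ht ht0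
  have ht0' : (0 : ℝ) ≤ t := le_of_lt ht0
  have h1 := O.mono hh hθL hglob y t ht0'
  have hUθ : ∀ z, O.U θ z = c * ⟪k, z⟫ + (L - c) * ∑ j, O.U (ψ j) z := by
    intro z
    rw [hθ, O.add _ _ ((isLip_inner k).smul c) (hsumL.smul (L - c)),
      O.smul _ _ (isLip_inner k), O.smul _ _ hsumL, O.lin, O.U_sum _ hψL]
  rw [hUθ, hUθ, hkk] at h1
  have h2 : ∑ j, O.U (ψ j) (y + t • k) - ∑ j, O.U (ψ j) y ≤ N * (2 * ε * t) := by
    rw [← Finset.sum_sub_distrib]
    calc _ ≤ ∑ _j : J, 2 * ε * t := Finset.sum_le_sum fun j _ => ht j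
      _ = N * (2 * ε * t) := by
        rw [Finset.sum_const, Finset.card_univ, nsmul_eq_mul]
  have h3 := mul_le_mul_of_nonneg_left h2 hLc
  have h4 : (L - c) * (N * (2 * ε * t)) ≤ η * t := by
    have h5 : (L - c) * N * (2 * ε) ≤ η := by
      rw [hε]
      have : (L - c) * N * (2 * (η / (2 * ((L - c) * N + 1)))) =
          η * (((L - c) * N) / ((L - c) * N + 1)) := by
        field_simp
      rw [this]
      have h6 : ((L - c) * N) / ((L - c) * N + 1) ≤ 1 := by
        rw [div_le_one (by positivity)]; linarith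
      calc η * (((L - c) * N) / ((L - c) * N + 1)) ≤ η * 1 :=
            mul_le_mul_of_nonneg_left h6 hη.le
        _ = η := mul_one η
    have := mul_le_mul_of_nonneg_right h5 ht0'
    nlinarith
  linarith

/-- a family of directions adapted to `k` -/
lemma exists_family [FiniteDimensional ℝ E] {k : E} (hk : ‖k‖ = 1) :
    ∃ (n : ℕ) (κ : Fin n → E), (∀ j, ⟪κ j, k⟫ = 1) ∧
      (∀ r > 0, ∃ δ > 0, ∀ z : E, (∀ j, |⟪κ j, z⟫| ≤ δ) → ‖z‖ < r) := by
  set n := Module.finrank ℝ E with hn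
  set b := stdOrthonormalBasis ℝ E with hb
  have hkk : ⟪k, k⟫ = 1 := by rw [real_inner_self_eq_norm_sq, hk]; norm_num
  refine ⟨n + 1, Fin.cons k (fun i => k + b i - ⟪b i, k⟫ • k), ?_, ?_⟩
  · intro j
    refine Fin.cases ?_ (fun i => ?_) j
    · rw [Fin.cons_zero]; exact hkk
    · simp only [Fin.cons_succ]
      rw [inner_sub_left, inner_add_left, inner_smul_left, hkk]
      simp
  · intro r hr
    refine ⟨r / (4 * (n + 1)), by positivity, fun z hz => ?_⟩
    set δ := r / (4 * ((n : ℝ) + 1)) with hδ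
    have hδ0 : 0 < δ := by positivity
    have h0 : |⟪k, z⟫| ≤ δ := by simpa using hz 0
    have hi : ∀ i, |⟪b i, z⟫| ≤ 3 * δ := by
      intro i
      have h1 := hz i.succ
      simp only [Fin.cons_succ] at h1
      rw [inner_sub_left, inner_add_left, inner_smul_left] at h1
      simp only [conj_trivial] at h1
      have h2 : |⟪b i, k⟫| ≤ 1 := by
        have := abs_real_inner_le_norm (b i) k
        rwa [b.norm_eq_one, hk, one_mul] at this
      have h3 : |⟪b i, k⟫ * ⟪k, z⟫| ≤ δ := by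
        rw [abs_mul]
        calc |⟪b i, k⟫| * |⟪k, z⟫| ≤ 1 * δ := by gcongr
          _ = δ := one_mul δ
      rw [abs_le] at h0 h1 h3 ⊢
      constructor <;> linarith [h0.1, h0.2, h1.1, h1.2, h3.1, h3.2]
    have hz2 : z = ∑ i, ⟪b i, z⟫ • b i := (b.sum_repr' z).symm
    have h4 : ‖z‖ ≤ n * (3 * δ) := by
      calc ‖z‖ = ‖∑ i, ⟪b i, z⟫ • b i‖ := by rw [← hz2]
        _ ≤ ∑ i, ‖⟪b i, z⟫ • b i‖ := norm_sum_le _ _
        _ ≤ ∑ _i : Fin n, 3 * δ := by
          apply Finset.sum_le_sum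
          intro i _
          rw [norm_smul, b.norm_eq_one, mul_one, Real.norm_eq_abs]
          exact hi i
        _ = n * (3 * δ) := by
          rw [Finset.sum_const, Finset.card_univ, Fintype.card_fin, nsmul_eq_mul]
    have h5 : (n : ℝ) * (3 * δ) < r := by
      have h6 : (4 * ((n : ℝ) + 1)) * δ = r := by rw [hδ]; field_simp
      nlinarith
    linarith

/-- one-sided estimate along a line for `C¹` functions -/
lemma smooth_le [FiniteDimensional ℝ E] {a : ℝ} {p : E} (ha : a ≠ 0)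
    (hex : ∀ κ : E, κ ≠ 0 → ∀ s, O.Exact κ s (a * s + ⟪κ, p⟫))
    {h : E → ℝ} (hh : IsLip h) (hC : ContDiff ℝ 1 h) {k : E} (hk : ‖k‖ = 1) (x₀ : E) {T : ℝ}
    (hT : 0 ≤ T) :
    O.U h (x₀ + T • k) - O.U h x₀ ≤
      a⁻¹ * (h (a • (x₀ + T • k) + p) - h (a • x₀ + p)) := by
  obtain ⟨n, κ, hκk, hcov⟩ := exists_family (E := E) hk
  have hκ0 : ∀ j, κ j ≠ 0 := by
    intro j h0
    have := hκk j
    rw [h0] at this
    simp at this
  have hdiff : Differentiable ℝ h := hC.differentiable one_ne_zero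
  have hcontd : Continuous (fun x => fderiv ℝ h x k) := by
    have := hC.continuous_fderiv one_ne_zero
    exact this.clm_apply continuous_const
  have hUc : Continuous (O.U h) := (O.isLip hh).continuous
  -- derivative along lines
  have hder : ∀ x : E, HasDerivAt (fun t : ℝ => h (x + t • k)) (fderiv ℝ h x k) 0 := by
    intro x
    have h1 : HasDerivAt (fun t : ℝ => x + t • k) k 0 := by
      have := ((hasDerivAt_id (0 : ℝ)).smul_const k).const_add x
      simpa using this
    have h2 : HasFDerivAt h (fderiv ℝ h x) (x + (0 : ℝ) • k) := by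
      rw [zero_smul, add_zero]; exact (hdiff x).hasFDerivAt
    exact h2.comp_hasDerivAt 0 h1
  have hG : ∀ t₀ : ℝ, HasDerivAt (fun t : ℝ => a⁻¹ * h (a • (x₀ + t • k) + p))
      (fderiv ℝ h (a • (x₀ + t₀ • k) + p) k) t₀ := by
    intro t₀
    have h1 : HasDerivAt (fun t : ℝ => a • (x₀ + t • k) + p) (a • k) t₀ := by
      have := ((((hasDerivAt_id t₀).smul_const k).const_add x₀).const_smul a).add_const p
      simpa using this
    have h2 := (hdiff (a • (x₀ + t₀ • k) + p)).hasFDerivAt.comp_hasDerivAt t₀ h1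
    have h3 := h2.const_mul a⁻¹
    rw [map_smul, smul_eq_mul, inv_mul_cancel_left₀ ha] at h3
    exact h3
  -- the slack version
  have key : ∀ η > 0, O.U h (x₀ + T • k) - O.U h x₀ ≤
      a⁻¹ * (h (a • (x₀ + T • k) + p) - h (a • x₀ + p)) + 3 * η * T := by
    intro η hη
    have hcont : Continuous (fun t : ℝ => a⁻¹ * h (a • (x₀ + t • k) + p) + 3 * η * t -
        O.U h (x₀ + t • k)) := by
      have h1 : Continuous (fun t : ℝ => x₀ + t • k) := by fun_prop
      have h2 : Continuous (fun t : ℝ => a • (x₀ + t • k) + p) := by fun_prop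
      exact ((continuous_const.mul (hh.continuous.comp h2)).add (by fun_prop)).sub
        (hUc.comp h1)
    have := le_of_right_local hcont (fun t₀ => ?_) hT
    · simp only [zero_smul, add_zero, mul_zero] at this
      linarith
    · set y := x₀ + t₀ • k with hy
      set w := a • y + p with hw
      set d := fderiv ℝ h w k with hd
      -- local upper bound for h
      have hloc : ∃ r > 0, ∀ x, ‖x - w‖ < r →
          ∀ᶠ t in 𝓝[>] (0 : ℝ), h (x + t • k) - h x ≤ (d + η) * t := by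
        have h1 : ∀ᶠ x in 𝓝 w, fderiv ℝ h x k < d + η :=
          hcontd.continuousAt.eventually_lt_const (by show d < d + η; linarith)
        rw [Metric.eventually_nhds_iff] at h1
        obtain ⟨r, hr, h1⟩ := h1
        refine ⟨r, hr, fun x hx => ?_⟩
        have h2 := h1 (y := x) (by rwa [dist_eq_norm])
        have h3 := hder x
        rw [hasDerivAt_iff_tendsto_slope] at h3
        have h4 := h3.eventually_lt_const h2
        have h5 : ∀ᶠ t in 𝓝[>] (0 : ℝ), _root_.slope (fun t : ℝ => h (x + t • k)) 0 t < d + η :=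
          h4.filter_mono (nhdsWithin_mono _ fun t ht => ne_of_gt ht)
        filter_upwards [h5, self_mem_nhdsWithin] with t ht ht0
        rw [slope_def_field, sub_zero, div_lt_iff₀ ht0, zero_smul, add_zero] at ht
        exact ht.le
      have hexj : ∀ j, O.Exact (κ j) ⟪κ j, y⟫ ⟪κ j, w⟫ := by
        intro j
        have := hex (κ j) (hκ0 j) ⟪κ j, y⟫
        have e : ⟪κ j, w⟫ = a * ⟪κ j, y⟫ + ⟪κ j, p⟫ := by
          rw [hw, inner_add_right, inner_smul_right]
        rwa [e]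
      have h1 := O.upper_local hk hκk hcov hh hexj hloc hη
      have h2 : ∀ᶠ t in 𝓝[>] (0 : ℝ), (d - η) * t ≤
          a⁻¹ * h (a • (x₀ + (t₀ + t) • k) + p) - a⁻¹ * h w := by
        have h3 := hG t₀
        rw [hasDerivAt_iff_tendsto_slope_zero] at h3
        have h4 := h3.eventually_const_lt (u := d - η) (by
          show d - η < d
          linarith)
        have h5 := h4.filter_mono (nhdsWithin_mono (0 : ℝ) (s := Ioi 0) fun t ht => ne_of_gt ht)
        filter_upwards [h5, self_mem_nhdsWithin] with t ht ht0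
        rw [smul_eq_mul, inv_mul_eq_div, lt_div_iff₀ ht0] at ht
        exact ht.le
      have h3 : Tendsto (fun s : ℝ => s - t₀) (𝓝[>] t₀) (𝓝[>] 0) := by
        apply tendsto_nhdsWithin_of_tendsto_nhds_of_eventually_within
        · have : Tendsto (fun s : ℝ => s - t₀) (𝓝 t₀) (𝓝 (t₀ - t₀)) := by
            apply Continuous.tendsto; fun_prop
          rw [sub_self] at this
          exact this.mono_left nhdsWithin_le_nhds
        · filter_upwards [self_mem_nhdsWithin] with s hs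
          exact mem_Ioi.2 (sub_pos.2 (mem_Ioi.1 hs))
      filter_upwards [h3.eventually h1, h3.eventually h2] with s hs1 hs2
      have e : y + (s - t₀) • k = x₀ + s • k := by
        rw [hy, sub_smul]; abel
      rw [e] at hs1
      rw [add_sub_cancel] at hs2
      nlinarith
  apply le_of_forall_pos_le_add
  intro ε hε
  have := key (ε / (3 * (T + 1))) (by positivity)
  have h1 : 3 * (ε / (3 * (T + 1))) * T ≤ ε := by
    have : 3 * (ε / (3 * (T + 1))) * T = ε * (T / (T + 1)) := by field_simp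
    rw [this]
    have h6 : T / (T + 1) ≤ 1 := by rw [div_le_one (by positivity)]; linarith
    calc ε * (T / (T + 1)) ≤ ε * 1 := mul_le_mul_of_nonneg_left h6 hε.le
      _ = ε := mul_one ε
  linarith

/-- `U` on `C¹` Lipschitz functions -/
theorem smooth_eq [FiniteDimensional ℝ E] {a : ℝ} {p : E} (ha : a ≠ 0)
    (hex : ∀ κ : E, κ ≠ 0 → ∀ s, O.Exact κ s (a * s + ⟪κ, p⟫))
    {h : E → ℝ} (hh : IsLip h) (hC : ContDiff ℝ 1 h) (x : E) :
    O.U h x - O.U h 0 = a⁻¹ * (h (a • x + p) - h p) := by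
  rcases eq_or_ne x 0 with rfl | hx
  · simp
  · have hn : 0 < ‖x‖ := norm_pos_iff.2 hx
    set k : E := ‖x‖⁻¹ • x with hk
    have hk1 : ‖k‖ = 1 := by rw [hk, norm_smul, norm_inv, norm_norm, inv_mul_cancel₀ hn.ne']
    have hxk : (0 : E) + ‖x‖ • k = x := by
      rw [hk, smul_smul, mul_inv_cancel₀ hn.ne', one_smul, zero_add]
    have h1 := O.smooth_le ha hex hh hC hk1 0 (T := ‖x‖) hn.le
    have h2 := O.smooth_le ha hex hh.neg hC.neg hk1 0 (T := ‖x‖) hn.le
    rw [hxk, smul_zero, zero_add] at h1 h2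
    have h3 : ∀ z, O.U (fun x => - h x) z = - O.U h z := by
      intro z
      have := O.smul (-1) h hh z
      have e : (fun x => - h x) = (fun x => (-1) * h x) := by funext x; ring
      rw [e, this]; ring
    rw [h3, h3] at h2
    have h4 : a⁻¹ * (-h (a • x + p) - -h p) = -(a⁻¹ * (h (a • x + p) - h p)) := by ring
    rw [h4] at h2
    linarith

end CoreOp

end Pool.Agent.MPcf641d
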