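import Mathlib
import Pool.Agent.MPcf641d.Free
import Pool.Agent.MPcf641d.Smooth
import Pool.Agent.MPcf641d.Mollify

/-!
Rigidity of the Lipschitz-free space of a Euclidean space of dimension at least two
(`MP_cf641d_an`).
-/

set_option linter.unusedSectionVars false

namespace Pool.Agent.MPcf641d

open Filter Topology
open scoped RealInnerProductSpace

variable {E : Type*} [NormedAddCommGroup E] [InnerProductSpace ℝ E]

lemma LipB.lipM {K : ℝ} {f : E → ℝ} (h : LipB K f) : LipM K f := fun x y => by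
  rw [dist_eq_norm]; exact h x y

lemma LipM.lipB {K : ℝ} {f : E → ℝ} (h : LipM K f) : LipB K f := fun x y => by
  rw [← dist_eq_norm]; exact h x y

section Construction

variable [FiniteDimensional ℝ E] (T : FreeSpace E ≃ₗᵢ[ℝ] FreeSpace E)

/-- the linear functional `k ↦ S (⟪k, ·⟫) x` -/
noncomputable def gL (x : E) : E →ₗ[ℝ] ℝ where
  toFun k := Ts T.symm 0 (fun y => ⟪k, y⟫) x
  map_add' k l := by
    unfold Ts
    have h : (fun y : E => ⟪k + l, y⟫) = (fun y => ⟪k, y⟫ + ⟪l, y⟫) := by
      funext y; rw [inner_add_left]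
    rw [h, ev_add (norm_nonneg k) (norm_nonneg l) (lipB_inner k).lipM (lipB_inner l).lipM]
    rfl
  map_smul' c k := by
    unfold Ts
    have h : (fun y : E => ⟪c • k, y⟫) = (fun y => c * ⟪k, y⟫) := by
      funext y; rw [inner_smul_left]; simp
    rw [h, ev_smul (norm_nonneg k) (lipB_inner k).lipM]
    rfl

/-- the map `g` -/
noncomputable def gmap (x : E) : E :=
  haveI : CompleteSpace E := FiniteDimensional.complete ℝ E
  (InnerProductSpace.toDual ℝ E).symm (LinearMap.toContinuousLinearMap (gL T x))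

lemma inner_gmap (k x : E) : ⟪k, gmap T x⟫ = Ts T.symm 0 (fun y => ⟪k, y⟫) x := by
  have : CompleteSpace E := FiniteDimensional.complete ℝ E
  rw [real_inner_comm]
  unfold gmap
  rw [InnerProductSpace.toDual_symm_apply]
  rfl

lemma gmap_lip (x y : E) : ‖gmap T x - gmap T y‖ ≤ ‖x - y‖ := by
  set k := gmap T x - gmap T y with hk
  have h1 : ‖k‖ ^ 2 ≤ ‖k‖ * ‖x - y‖ := by
    calc ‖k‖ ^ 2 = ⟪k, k⟫ := (real_inner_self_eq_norm_sq k).symm
      _ = ⟪k, gmap T x⟫ - ⟪k, gmap T y⟫ := by rw [← inner_sub_right]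
      _ = Ts T.symm 0 (fun y => ⟪k, y⟫) x - Ts T.symm 0 (fun y => ⟪k, y⟫) y := by
        rw [inner_gmap, inner_gmap]
      _ ≤ ‖k‖ * dist x y := Ts_lip T.symm 0 (norm_nonneg k) (lipB_inner k).lipM x y
      _ = ‖k‖ * ‖x - y‖ := by rw [dist_eq_norm]
  rcases (norm_nonneg k).eq_or_lt with h0 | h0
  · rw [← h0]; exact norm_nonneg _
  · rw [sq] at h1
    exact le_of_mul_le_mul_left h1 h0

lemma comp_gmap {h : E → ℝ} {K : ℝ} (hK : 0 ≤ K) (hh : LipB K h) :
    LipM K (fun x => h (gmap T x)) := by
  intro x y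
  rw [dist_eq_norm]
  exact (hh _ _).trans (mul_le_mul_of_nonneg_left (gmap_lip T x y) hK)

lemma lipB_neg_const {C : ℝ} (hC : C < 0) {f : E → ℝ} (h : LipB C f) (x y : E) : x = y := by
  have h1 := h x y
  have h2 := h y x
  rw [norm_sub_rev] at h2
  have h3 : 0 ≤ C * ‖x - y‖ := by linarith
  have h4 : ‖x - y‖ ≤ 0 := by
    by_contra hcon
    push Not at hcon
    nlinarith
  exact sub_eq_zero.1 (norm_le_zero_iff.1 h4)

/-- the operator associated with an isometry of the free space -/
noncomputable def coreOp : CoreOp E where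
  U h x := Ts T 0 (fun y => h (gmap T y)) x
  g := gmap T
  g_lip := gmap_lip T
  add f h hf hh x := by
    obtain ⟨K, hK, hf⟩ := hf.exists_nonneg
    obtain ⟨L, hL, hh⟩ := hh.exists_nonneg
    unfold Ts
    rw [ev_add hK hL (comp_gmap T hK hf) (comp_gmap T hL hh)]
    rfl
  smul c f hf x := by
    obtain ⟨K, hK, hf⟩ := hf.exists_nonneg
    unfold Ts
    rw [ev_smul hK (comp_gmap T hK hf)]
    rfl
  lin k x := by
    have h : (fun y => ⟪k, gmap T y⟫) = Ts T.symm 0 (fun y => ⟪k, y⟫) := by
      funext y; rw [inner_gmap]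
    simp only
    rw [h, Ts_symm T 0 (norm_nonneg k) (lipB_inner k).lipM]
    simp
  lip_iff h hh C := by
    obtain ⟨K, hK, hh⟩ := hh.exists_nonneg
    by_cases hC : 0 ≤ C
    · constructor
      · intro h1
        have h2 := Ts_lip T.symm 0 hC h1.lipM
        intro x y
        have h3 := h2 x y
        have h4 : ∀ z, Ts T.symm 0 (fun x => Ts T 0 (fun y => h (gmap T y)) x) z =
            h (gmap T z) - h (gmap T 0) := by
          intro z
          have := Ts_symm T.symm 0 hK (comp_gmap T hK hh) z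
          rw [LinearIsometryEquiv.symm_symm] at this
          exact this
        rw [h4, h4, dist_eq_norm] at h3
        simp only
        linarith
      · intro h1
        exact (Ts_lip T 0 hC h1.lipM).lipB
    · push Not at hC
      constructor
      · intro h1 x y
        rw [lipB_neg_const hC h1 x y]; simp
      · intro h1 x y
        rw [lipB_neg_const hC h1 x y]; simp

end Construction

/-- Euclidean spaces of dimension at least two satisfy the dimension condition. -/
lemma dim2_of_finrank [FiniteDimensional ℝ E] (h : 2 ≤ Module.finrank ℝ E) : CoreOp.Dim2 E := by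
  intro κ hκ
  have h1 : Module.finrank ℝ (ℝ ∙ κ)ᗮ + 1 = Module.finrank ℝ E := by
    have h2 := Submodule.finrank_add_finrank_orthogonal (ℝ ∙ κ)
    rw [finrank_span_singleton hκ] at h2
    omega
  have h2 : 0 < Module.finrank ℝ (ℝ ∙ κ)ᗮ := by omega
  have : Nontrivial (ℝ ∙ κ)ᗮ := Module.nontrivial_of_finrank_pos h2
  obtain ⟨⟨κ', hκ'⟩, hne⟩ := exists_ne (0 : (ℝ ∙ κ)ᗮ)
  refine ⟨κ', ?_⟩
  have h3 : κ' ≠ 0 := fun h0 => hne (Subtype.ext h0)
  have h4 : ⟪κ, κ'⟫ = 0 := Submodule.mem_orthogonal_singleton_iff_inner_right.1 hκ'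
  unfold CoreOp.gram
  rw [h4]
  have h5 : ‖κ‖ ≠ 0 := norm_ne_zero_iff.2 hκ
  have h6 : ‖κ'‖ ≠ 0 := norm_ne_zero_iff.2 h3
  have h7 : ‖κ‖ ^ 2 * ‖κ'‖ ^ 2 - 0 ^ 2 = (‖κ‖ * ‖κ'‖) ^ 2 := by ring
  rw [h7]
  positivity

/-- The Lipschitz-free space of a Euclidean space of dimension at least two is rigid. -/
theorem rigid_of_finrank [FiniteDimensional ℝ E] (hE : 2 ≤ Module.finrank ℝ E) :
    LipschitzFreeRigid E := by
  intro T
  have hNT : Nontrivial E := Module.nontrivial_of_finrank_pos (R := ℝ) (by omega)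
  set O := coreOp T with hO
  obtain ⟨a, p, ha, hex⟩ := O.affine_law (dim2_of_finrank hE)
  set g := gmap T with hg
  have hgl : ∀ x y, ‖g x - g y‖ ≤ ‖x - y‖ := gmap_lip T
  have hUdef : ∀ h x, O.U h x = ev (fun y => h (g y)) (T (incl (mol x 0))) := fun _ _ => rfl
  have hU0 : ∀ h, O.U h 0 = 0 := by
    intro h
    rw [hUdef, mol_self, map_zero, map_zero, map_zero]
  -- the formula for `C¹` functions
  have hsmooth : ∀ h : E → ℝ, IsLip h → ContDiff ℝ 1 h → ∀ x,
      O.U h x = a⁻¹ * (h (a • x + p) - h p) := by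
    intro h hh hC x
    have := O.smooth_eq ha hex hh hC x
    rwa [hU0, sub_zero] at this
  -- the formula for all Lipschitz functions
  have hall : ∀ (h : E → ℝ) (K : ℝ), 0 ≤ K → LipB K h → ∀ x,
      O.U h x = a⁻¹ * (h (a • x + p) - h p) := by
    intro h K hK hh x
    choose f hf1 hf2 hf3 using fun n : ℕ =>
      exists_smooth_approx hK hh (ε := 1 / ((n : ℝ) + 1)) (by positivity)
    have hlim : ∀ z, Tendsto (fun n => f n z) atTop (𝓝 (h z)) := by
      intro z
      rw [tendsto_iff_dist_tendsto_zero]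
      apply squeeze_zero (fun n => dist_nonneg) (fun n => ?_)
        (tendsto_one_div_add_atTop_nhds_zero_nat (𝕜 := ℝ))
      rw [Real.dist_eq]
      exact hf3 n z
    have h1 : Tendsto (fun n => O.U (f n) x) atTop (𝓝 (O.U h x)) := by
      simp only [hUdef]
      exact ev_tendsto hK (fun n => comp_gmap T hK (hf1 n)) (comp_gmap T hK hh)
        (fun z => hlim (g z)) _
    have h2 : Tendsto (fun n => O.U (f n) x) atTop (𝓝 (a⁻¹ * (h (a • x + p) - h p))) := by
      simp only [fun n => hsmooth (f n) ⟨K, hf1 n⟩ (hf2 n) x]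
      exact ((hlim _).sub (hlim _)).const_mul _
    exact tendsto_nhds_unique h1 h2
  -- the dilation operator on functions
  have hD : ∀ (h : E → ℝ) (K : ℝ), 0 ≤ K → LipB K h →
      LipM K (fun x => a⁻¹ * (h (a • x + p) - h p)) := by
    intro h K hK hh x y
    have ha' : 0 < |a| := abs_pos.2 ha
    have h1 := hh.abs (a • x + p) (a • y + p)
    have h2 : a • x + p - (a • y + p) = a • (x - y) := by rw [smul_sub]; abel
    rw [h2, norm_smul, Real.norm_eq_abs] at h1
    have h3 : a⁻¹ * (h (a • x + p) - h p) - a⁻¹ * (h (a • y + p) - h p) =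
        a⁻¹ * (h (a • x + p) - h (a • y + p)) := by ring
    rw [h3, dist_eq_norm]
    calc a⁻¹ * (h (a • x + p) - h (a • y + p)) ≤ |a⁻¹ * (h (a • x + p) - h (a • y + p))| :=
          le_abs_self _
      _ = |a|⁻¹ * |h (a • x + p) - h (a • y + p)| := by rw [abs_mul, abs_inv]
      _ ≤ |a|⁻¹ * (K * (|a| * ‖x - y‖)) := by gcongr
      _ = K * ‖x - y‖ := by field_simp
  have hev : ∀ (h : E → ℝ) (K : ℝ), 0 ≤ K → LipB K h → ∀ v,
      ev (fun y => h (g y)) (T v) = ev (fun x => a⁻¹ * (h (a • x + p) - h p)) v := by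
    intro h K hK hh v
    have h1 : (ev (fun y => h (g y))).comp (T : FreeSpace E →L[ℝ] FreeSpace E) =
        ev (fun x => a⁻¹ * (h (a • x + p) - h p)) := by
      apply clm_ext
      intro x y
      rw [ev_mol hK (hD h K hK hh)]
      have h2 := hall h K hK hh x
      have h3 := hall h K hK hh y
      rw [hUdef] at h2 h3
      rw [← h2, ← h3, ← map_sub, ← map_sub, ← map_sub, mol_sub]
      rfl
    have := congrArg (fun A => A v) h1
    exact this
  -- `g` is an isometry
  have hgiso : ∀ x y, ‖g x - g y‖ = ‖x - y‖ := by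
    intro x y
    apply le_antisymm (hgl x y)
    have h1 : ‖T.symm (incl (mol x y))‖ = ‖x - y‖ := by
      rw [T.symm.norm_map, norm_mol, dist_eq_norm]
    rw [← h1]
    apply norm_le_of_ev
    intro f hf
    set h : E → ℝ := fun z => a * f (a⁻¹ • (z - p)) with hh
    have ha' : 0 < |a| := abs_pos.2 ha
    have hhL : LipB 1 h := by
      intro z w
      have h2 := hf.abs (a⁻¹ • (z - p)) (a⁻¹ • (w - p))
      rw [dist_eq_norm, ← smul_sub, sub_sub_sub_cancel_right, norm_smul, norm_inv,
        Real.norm_eq_abs] at h2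
      simp only [hh]
      calc a * f (a⁻¹ • (z - p)) - a * f (a⁻¹ • (w - p))
          = a * (f (a⁻¹ • (z - p)) - f (a⁻¹ • (w - p))) := by ring
        _ ≤ |a * (f (a⁻¹ • (z - p)) - f (a⁻¹ • (w - p)))| := le_abs_self _
        _ = |a| * |f (a⁻¹ • (z - p)) - f (a⁻¹ • (w - p))| := abs_mul _ _
        _ ≤ |a| * (1 * (|a|⁻¹ * ‖z - w‖)) := by gcongr
        _ = 1 * ‖z - w‖ := by field_simp
    have h3 : (fun x => a⁻¹ * (h (a • x + p) - h p)) = (fun x => f x - f 0) := by
      funext x
      simp only [hh]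
      rw [add_sub_cancel_right, smul_smul, inv_mul_cancel₀ ha, one_smul, sub_self, smul_zero]
      field_simp
    have h4 := hev h 1 zero_le_one hhL (T.symm (incl (mol x y)))
    rw [T.apply_symm_apply, h3, ev_sub_const zero_le_one hf,
      ev_mol zero_le_one (comp_gmap T zero_le_one hhL)] at h4
    rw [← h4]
    have := hhL.abs (g x) (g y)
    rwa [one_mul] at this
  -- `g` is bijective
  have hgI : Isometry g := Isometry.of_dist_eq fun x y => by
    rw [dist_eq_norm, dist_eq_norm]; exact hgiso x y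
  have hgsurj : Function.Surjective g := by
    set A := hgI.affineIsometryOfStrictConvexSpace with hA
    have hAg : ∀ x, A x = g x := fun x => rfl
    have hinj : Function.Injective A.linearIsometry.toLinearMap := A.linearIsometry.injective
    have hsurj : Function.Surjective A.linearIsometry.toLinearMap :=
      LinearMap.surjective_of_injective hinj
    intro z
    obtain ⟨w, hw⟩ := hsurj (z - g 0)
    refine ⟨w, ?_⟩
    have h1 := A.map_vadd (0 : E) w
    rw [vadd_eq_add, vadd_eq_add, add_zero, hAg, hAg] at h1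
    rw [h1]
    have h2 : A.linearIsometry w = z - g 0 := hw
    rw [h2]; abel
  have hginj : Function.Injective g := hgI.injective
  choose φ hφ using fun x => hgsurj (a • x + p)
  have ha' : 0 < |a| := abs_pos.2 ha
  have hφdist : ∀ x y, dist (φ x) (φ y) = |a| * dist x y := by
    intro x y
    rw [← hgI.dist_eq, hφ, hφ, dist_eq_norm, dist_eq_norm]
    have h2 : a • x + p - (a • y + p) = a • (x - y) := by rw [smul_sub]; abel
    rw [h2, norm_smul, Real.norm_eq_abs]
  have hφsurj : Function.Surjective φ := by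
    intro z
    refine ⟨a⁻¹ • (g z - p), ?_⟩
    apply hginj
    rw [hφ, smul_smul, mul_inv_cancel₀ ha, one_smul, sub_add_cancel]
  -- the formula for `T`
  have hT : ∀ x y, T (incl (mol x y)) = a⁻¹ • incl (mol (φ x) (φ y)) := by
    intro x y
    apply eq_of_ev
    intro f hf
    choose ginv hginv using hgsurj
    set h : E → ℝ := fun z => f (ginv z) with hh
    have hhL : LipB 1 h := by
      intro z w
      have h2 := hf (ginv z) (ginv w)
      rw [dist_eq_norm, ← hgiso, hginv, hginv] at h2
      exact h2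
    have hhg : (fun y => h (g y)) = f := by
      funext z
      simp only [hh]
      congr 1
      apply hginj
      rw [hginv]
    have h4 := hev h 1 zero_le_one hhL (incl (mol x y))
    rw [hhg, ev_mol zero_le_one (hD h 1 zero_le_one hhL)] at h4
    rw [h4, map_smul, ev_mol zero_le_one hf, smul_eq_mul]
    have h5 : ∀ z, h (a • z + p) = f (φ z) := by
      intro z
      rw [← hφ z]
      exact congrFun hhg (φ z)
    rw [h5, h5]
    ring
  -- conclusion
  refine ⟨|a| / a, ?_, |a|⁻¹, inv_pos.2 ha', φ, hφsurj, ?_,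
    (|a| / a) • (T : FreeSpace E →L[ℝ] FreeSpace E), ?_, ?_⟩
  · rcases lt_or_gt_of_ne ha with h | h
    · right; rw [abs_of_neg h]; field_simp
    · left; rw [abs_of_pos h]; field_simp
  · intro x y
    rw [hφdist]
    field_simp
  · intro x y
    have h1 := hT x y
    have h2 : |a| / a * a⁻¹ = |a|⁻¹ := by
      have : |a| * |a| = a * a := abs_mul_abs_self a
      field_simp
      nlinarith
    show (|a| / a) • T (incl (mol x y)) = _
    rw [h1, smul_smul, h2]
    rfl
  · intro v
    have h2 : |a| / a * (|a| / a) = 1 := by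
      have : |a| * |a| = a * a := abs_mul_abs_self a
      field_simp
      nlinarith
    show T v = (|a| / a) • ((|a| / a) • T v)
    rw [smul_smul, h2, one_smul]

end Pool.Agent.MPcf641d
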